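import Pool.Agent.Q120.TT.Det

/-!
# Project TT, assembly, part three: the asymptotic formula
-/

set_option autoImplicit false

namespace Pool.Agent.Q120.TT

open Finset MeasureTheory Filter Pool.Agent.Q120.ET Pool.Agent.Q120.GM Pool.Agent.Q120.CL Pool.Agent.Q120.MG
  Pool.Agent.Q120.HL Pool.Agent.Q112.LE
open scoped Topology

theorem log_tendsto : Tendsto (fun x : ℕ => Nat.log 2 x) atTop atTop := by
  rw [tendsto_atTop_atTop]
  intro K
  refine ⟨2 ^ K, fun x hx => ?_⟩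
  exact Nat.le_log_of_pow_le (by norm_num) hx

theorem log_ratio : Tendsto (fun x : ℕ => Real.log x / (Nat.log 2 x : ℝ)) atTop (𝓝 (Real.log 2)) := by
  have h1 : Tendsto (fun x : ℕ => Real.log 2 + Real.log 2 * (1 / (Nat.log 2 x : ℝ))) atTop (𝓝 (Real.log 2 + Real.log 2 * 0)) :=
    tendsto_const_nhds.add ((tendsto_one_div_atTop_nhds_zero_nat.comp log_tendsto).const_mul _)
  rw [mul_zero, add_zero] at h1
  refine tendsto_of_tendsto_of_tendsto_of_le_of_le' tendsto_const_nhds h1 ?_ ?_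
  · filter_upwards [eventually_ge_atTop 2] with x hx
    have hk : 1 ≤ Nat.log 2 x := Nat.le_log_of_pow_le (by norm_num) (by simpa using hx)
    have hk0 : (0 : ℝ) < Nat.log 2 x := by exact_mod_cast hk
    have h2 := log_block (Nat.pow_log_le_self 2 (show x ≠ 0 by omega)) (Nat.lt_pow_succ_log_self (by norm_num : 1 < 2) x)
    rw [le_div_iff₀ hk0]
    linarith [h2.2.1]
  · filter_upwards [eventually_ge_atTop 2] with x hx
    have hk : 1 ≤ Nat.log 2 x := Nat.le_log_of_pow_le (by norm_num) (by simpa using hx)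
    have hk0 : (0 : ℝ) < Nat.log 2 x := by exact_mod_cast hk
    have h2 := log_block (Nat.pow_log_le_self 2 (show x ≠ 0 by omega)) (Nat.lt_pow_succ_log_self (by norm_num : 1 < 2) x)
    rw [div_le_iff₀ hk0]
    have h3 : (Real.log 2 + Real.log 2 * (1 / (Nat.log 2 x : ℝ))) * (Nat.log 2 x : ℝ) = ((Nat.log 2 x : ℝ) + 1) * Real.log 2 := by
      field_simp
    rw [h3]
    exact h2.2.2

section

variable {z : ℕ → ℕ} {D : Finset ℕ} {H : ℕ}

/-- The asymptotic formula. -/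
theorem asym_of_good (J : Jobs) (hz : Tendsto z atTop atTop) (hz8 : ∀ᶠ k : ℕ in atTop, 8 * z k ≤ k) (hD : D.Nonempty)
    (hH : ∀ h ∈ D, h ≤ H) {S : Set ℕ} (hS : ∀ e : ℝ, 0 < e → ∀ᶠ k : ℕ in atTop, ¬ Bad (pr z) D H k e S) : Asym S D := by
  obtain ⟨c, hc⟩ : ∃ c : ℝ, c = SS D / Real.log 2 ^ D.card := ⟨_, rfl⟩
  obtain ⟨r, hr⟩ : ∃ r, r = D.card := ⟨_, rfl⟩
  have hl : 0 < Real.log 2 := Real.log_pos (by norm_num)
  have hc0 : 0 ≤ c := by rw [hc]; exact div_nonneg (SS_nonneg D) (by positivity)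
  have hmain : Tendsto (fun x : ℕ => (tupI S D 0 (x + 1) : ℝ) / (x / (Nat.log 2 x : ℝ) ^ r)) atTop (𝓝 c) := by
    rw [Metric.tendsto_atTop']
    intro ε hε
    have h1 := cum J hz hz8 hD hH hS
    rw [← hc, ← hr] at h1
    have h2 : ∀ᶠ k : ℕ in atTop, |(tupI S D 0 (2 ^ k) : ℝ) - c * (2 ^ k / (k : ℝ) ^ r)| / (2 ^ k / (k : ℝ) ^ r) < ε / 4 :=
      h1.eventually (gt_mem_nhds (by positivity))
    have h3 := block_law J hz hz8 hD hH hS (show 0 < ε / 4 by positivity)
    rw [← hc, ← hr] at h3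
    have h4 := pow_large c r (show 0 < ε / 4 by positivity)
    have h5 : ∀ᶠ x : ℕ in atTop, dist ((tupI S D 0 (x + 1) : ℝ) / (x / (Nat.log 2 x : ℝ) ^ r)) c < ε := by
      filter_upwards [log_tendsto.eventually h2, log_tendsto.eventually h3, log_tendsto.eventually h4,
        eventually_ge_atTop 2] with x e1 e2 e3 hx
      obtain ⟨k, hk⟩ : ∃ k, k = Nat.log 2 x := ⟨_, rfl⟩
      rw [← hk] at e1 e2 e3 ⊢
      have hk1 : 1 ≤ k := by rw [hk]; exact Nat.le_log_of_pow_le (by norm_num) (by simpa using hx)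
      have hk0 : (0 : ℝ) < k := by exact_mod_cast hk1
      have hxk : 2 ^ k ≤ x := by rw [hk]; exact Nat.pow_log_le_self 2 (show x ≠ 0 by omega)
      have hxk2 : x < 2 ^ (k + 1) := by rw [hk]; exact Nat.lt_pow_succ_log_self (by norm_num : 1 < 2) x
      have hxr : (2 : ℝ) ^ k ≤ x := by exact_mod_cast hxk
      have hx0 : (0 : ℝ) < x := lt_of_lt_of_le (by positivity) hxr
      have hkr : (0 : ℝ) < (k : ℝ) ^ r := by positivity
      rw [Real.dist_eq]
      have h6 := tupI_add S D (Nat.zero_le (2 ^ k)) (show 2 ^ k ≤ x + 1 by omega)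
      have h7 := e2 (x + 1) (by omega) (by omega)
      obtain ⟨w, hw⟩ : ∃ w : ℝ, w = 2 ^ k / (k : ℝ) ^ r := ⟨_, rfl⟩
      rw [← hw] at e1 e3 h7
      have hw0 : 0 < w := by rw [hw]; positivity
      rw [div_lt_iff₀ hw0] at e1
      have h8 : w ≤ x / (k : ℝ) ^ r := by rw [hw]; exact div_le_div_of_nonneg_right hxr hkr.le
      have h9 : (tupI S D 0 (x + 1) : ℝ) - c * (x / (k : ℝ) ^ r) = ((tupI S D 0 (2 ^ k) : ℝ) - c * w) +
          ((tupI S D (2 ^ k) (x + 1) : ℝ) - c * ((((x + 1 : ℕ) : ℝ) - 2 ^ k) / (k : ℝ) ^ r)) + c / (k : ℝ) ^ r := by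
        rw [h6, hw]
        push_cast
        ring
      have h10 : |(tupI S D 0 (x + 1) : ℝ) - c * (x / (k : ℝ) ^ r)| ≤ |(tupI S D 0 (2 ^ k) : ℝ) - c * w| +
          |(tupI S D (2 ^ k) (x + 1) : ℝ) - c * ((((x + 1 : ℕ) : ℝ) - 2 ^ k) / (k : ℝ) ^ r)| + |c / (k : ℝ) ^ r| := by
        rw [h9]
        exact abs_add_three _ _ _
      have h11 : |c / (k : ℝ) ^ r| ≤ c * k := by
        rw [abs_of_nonneg (by positivity)]
        have hk1' : (1 : ℝ) ≤ k := by exact_mod_cast hk1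
        have : c / (k : ℝ) ^ r ≤ c := div_le_self hc0 (one_le_pow₀ hk1')
        nlinarith
      have h12 : (tupI S D 0 (x + 1) : ℝ) / (x / (k : ℝ) ^ r) - c = ((tupI S D 0 (x + 1) : ℝ) - c * (x / (k : ℝ) ^ r)) / (x / (k : ℝ) ^ r) := by
        field_simp
      have h13 : 0 < (x : ℝ) / (k : ℝ) ^ r := by positivity
      rw [h12, abs_div, abs_of_pos h13, div_lt_iff₀ h13]
      nlinarith
    obtain ⟨N, hN⟩ := eventually_atTop.1 h5
    exact ⟨N, fun n hn => hN n hn.le⟩
  have h2 : Tendsto (fun x : ℕ => (Real.log x / (Nat.log 2 x : ℝ)) ^ r) atTop (𝓝 (Real.log 2 ^ r)) := log_ratio.pow r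
  have h3 := hmain.mul h2
  have h4 : c * Real.log 2 ^ r = SS D := by rw [hc, hr]; field_simp
  rw [h4] at h3
  unfold Asym
  rw [← hr]
  refine h3.congr' ?_
  filter_upwards [eventually_ge_atTop 2] with x hx
  have hk : 1 ≤ Nat.log 2 x := Nat.le_log_of_pow_le (by norm_num) (by simpa using hx)
  have hk0 : (0 : ℝ) < Nat.log 2 x := by exact_mod_cast hk
  have hx0 : (0 : ℝ) < x := by
    have : (2 : ℝ) ≤ x := by exact_mod_cast hx
    linarith
  rw [div_pow]
  have hlx : 0 < Real.log x := Real.log_pos (by exact_mod_cast (show 1 < x by omega))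
  field_simp

/-- The asymptotic formula gives a tuple in every large block. -/
theorem hit_of_asym (hD : D.Nonempty) (hH : ∀ h ∈ D, h ≤ H) (hSS : SS D ≠ 0) {S : Set ℕ} (h : Asym S D) :
    ∀ᶠ k : ℕ in atTop, Hit S D H k := by
  obtain ⟨r, hr⟩ : ∃ r, r = D.card := ⟨_, rfl⟩
  have hSS0 : 0 < SS D := lt_of_le_of_ne (SS_nonneg D) (Ne.symm hSS)
  have hl : 0 < Real.log 2 := Real.log_pos (by norm_num)
  unfold Asym at h
  rw [← hr] at h
  -- the values at x = 2 ^ k - 1
  have hx : Tendsto (fun k : ℕ => 2 ^ k - 1) atTop atTop := by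
    rw [tendsto_atTop_atTop]
    intro K
    refine ⟨K + 1, fun k hk => ?_⟩
    have h1 : k < 2 ^ k := Nat.lt_two_pow_self
    omega
  have h1 := h.comp hx
  have hq : Tendsto (fun k : ℕ => ((((2 ^ k - 1 : ℕ) : ℝ) / Real.log ((2 ^ k - 1 : ℕ) : ℝ) ^ r) / (2 ^ k / (k : ℝ) ^ r))) atTop
      (𝓝 (1 / Real.log 2 ^ r)) := by
    have e1 : Tendsto (fun k : ℕ => 1 - (1 / 2 : ℝ) ^ k) atTop (𝓝 (1 - 0)) :=
      tendsto_const_nhds.sub (tendsto_pow_atTop_nhds_zero_of_lt_one (by norm_num) (by norm_num))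
    rw [sub_zero] at e1
    have e2 : Tendsto (fun k : ℕ => Real.log ((2 ^ k - 1 : ℕ) : ℝ) / k) atTop (𝓝 (Real.log 2)) := by
      have e3 : Tendsto (fun k : ℕ => Real.log 2 - Real.log 2 * (1 / (k : ℝ))) atTop (𝓝 (Real.log 2 - Real.log 2 * 0)) :=
        tendsto_const_nhds.sub (tendsto_one_div_atTop_nhds_zero_nat.const_mul _)
      rw [mul_zero, sub_zero] at e3
      refine tendsto_of_tendsto_of_tendsto_of_le_of_le' e3 tendsto_const_nhds ?_ ?_
      · filter_upwards [eventually_ge_atTop 1] with k hk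
        have hk0 : (0 : ℝ) < k := by exact_mod_cast hk
        rw [le_div_iff₀ hk0]
        have e4 : (Real.log 2 - Real.log 2 * (1 / (k : ℝ))) * k = ((k : ℝ) - 1) * Real.log 2 := by field_simp
        rw [e4]
        have e5 : ((k : ℝ) - 1) * Real.log 2 = Real.log ((2 : ℝ) ^ (k - 1)) := by
          rw [Real.log_pow, Nat.cast_sub hk]
          simp
        rw [e5]
        apply Real.log_le_log (by positivity)
        have e6 : 2 ^ (k - 1) ≤ 2 ^ k - 1 := by
          obtain ⟨m, rfl⟩ := Nat.exists_eq_add_of_le' hk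
          have : 1 ≤ 2 ^ m := Nat.one_le_two_pow
          rw [Nat.add_sub_cancel, pow_succ]
          omega
        exact_mod_cast e6
      · filter_upwards [eventually_ge_atTop 1] with k hk
        have hk0 : (0 : ℝ) < k := by exact_mod_cast hk
        rw [div_le_iff₀ hk0, mul_comm, ← Real.log_pow]
        apply Real.log_le_log
        · have : 1 ≤ 2 ^ k - 1 := by
            obtain ⟨m, rfl⟩ := Nat.exists_eq_add_of_le' hk
            have : 1 ≤ 2 ^ m := Nat.one_le_two_pow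
            rw [pow_succ]
            omega
          exact_mod_cast this
        · have : 2 ^ k - 1 ≤ 2 ^ k := Nat.sub_le _ _
          exact_mod_cast this
    have e3 := e1.mul ((e2.inv₀ hl.ne').pow r)
    rw [one_mul, inv_pow, ← one_div] at e3
    refine e3.congr' ?_
    filter_upwards [eventually_ge_atTop 2] with k hk
    have hk0 : (0 : ℝ) < k := by exact_mod_cast (show 0 < k by omega)
    have e4 : ((2 ^ k - 1 : ℕ) : ℝ) = 2 ^ k - 1 := by
      rw [Nat.cast_sub Nat.one_le_two_pow]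
      push_cast
      ring
    rw [e4]
    have e5 : (1 : ℝ) < 2 ^ k - 1 := by
      have : (2 : ℝ) ^ 2 ≤ 2 ^ k := pow_le_pow_right₀ (by norm_num) hk
      linarith
    have e6 : 0 < Real.log ((2 : ℝ) ^ k - 1) := Real.log_pos e5
    rw [div_pow, one_pow]
    field_simp
    rw [← mul_pow, div_mul_cancel₀ _ e6.ne']
  have hN : Tendsto (fun k : ℕ => (tupI S D 0 (2 ^ k) : ℝ) / (2 ^ k / (k : ℝ) ^ r)) atTop (𝓝 (SS D * (1 / Real.log 2 ^ r))) := by
    refine (h1.mul hq).congr' ?_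
    filter_upwards [eventually_ge_atTop 2] with k hk
    have hk0 : (0 : ℝ) < k := by exact_mod_cast (show 0 < k by omega)
    simp only [Function.comp_apply]
    have e4 : ((2 ^ k - 1 : ℕ) : ℝ) = 2 ^ k - 1 := by
      rw [Nat.cast_sub Nat.one_le_two_pow]
      push_cast
      ring
    have e7 : 2 ^ k - 1 + 1 = 2 ^ k := Nat.sub_add_cancel Nat.one_le_two_pow
    rw [e7, e4]
    have e5 : (1 : ℝ) < 2 ^ k - 1 := by
      have : (2 : ℝ) ^ 2 ≤ 2 ^ k := pow_le_pow_right₀ (by norm_num) hk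
      linarith
    have e6 : 0 < Real.log ((2 : ℝ) ^ k - 1) := Real.log_pos e5
    have e8 : (0 : ℝ) < 2 ^ k - 1 := by linarith
    field_simp
  obtain ⟨c, hc⟩ : ∃ c : ℝ, c = SS D * (1 / Real.log 2 ^ r) := ⟨_, rfl⟩
  have hc0 : 0 < c := by rw [hc]; positivity
  rw [← hc] at hN
  have hN1 : Tendsto (fun k : ℕ => (tupI S D 0 (2 ^ (k + 1)) : ℝ) / (2 ^ (k + 1) / ((k : ℝ) + 1) ^ r)) atTop (𝓝 c) := by
    refine (hN.comp (tendsto_add_atTop_nat 1)).congr (fun k => ?_)
    simp only [Function.comp_apply]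
    push_cast
    rfl
  have hρ := wratio r
  have hd : Tendsto (fun k : ℕ => (tupI S D (2 ^ k) (2 ^ (k + 1)) : ℝ) / (2 ^ k / (k : ℝ) ^ r)) atTop (𝓝 (c / (1 / 2) - c)) := by
    refine ((hN1.div hρ (by norm_num)).sub hN).congr' ?_
    filter_upwards [eventually_ge_atTop 1] with k hk
    have hk0 : (0 : ℝ) < k := by exact_mod_cast (show 0 < k by omega)
    have e1 := tupI_add S D (Nat.zero_le (2 ^ k)) (show 2 ^ k ≤ 2 ^ (k + 1) from Nat.pow_le_pow_right (by norm_num) (by omega))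
    simp only [Pi.div_apply]
    rw [e1]
    push_cast
    field_simp
    ring
  have e1 : c / (1 / 2) - c = c := by ring
  rw [e1] at hd
  filter_upwards [hd.eventually (lt_mem_nhds (show c / 2 < c by linarith)), pow_large ((H : ℝ)) r (show 0 < c / 4 by positivity),
    eventually_ge_atTop 1] with k h2 h3 hk
  by_contra hcon
  have hk0 : (0 : ℝ) < k := by exact_mod_cast (show 0 < k by omega)
  have hk1 : (1 : ℝ) ≤ k := by exact_mod_cast hk
  have h4 : (tupI S D (2 ^ k) (2 ^ (k + 1)) : ℝ) ≤ H := by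
    classical
    have h5 : tupI S D (2 ^ k) (2 ^ (k + 1)) ≤ H := by
      unfold tupI
      have h6 : (Ico (2 ^ k) (2 ^ (k + 1))).filter (fun n => ∀ h ∈ D, n + h ∈ S) ⊆ Ico (2 ^ (k + 1) - H) (2 ^ (k + 1)) := by
        intro n hn
        rw [mem_filter, mem_Ico] at hn
        rw [mem_Ico]
        refine ⟨?_, hn.1.2⟩
        by_contra h7
        exact hcon ⟨n, hn.1.1, by omega, hn.2⟩
      refine (card_le_card h6).trans ?_
      rw [Nat.card_Ico]
      omega
    exact_mod_cast h5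
  have hw : 0 < (2 : ℝ) ^ k / (k : ℝ) ^ r := by positivity
  rw [lt_div_iff₀ hw] at h2
  have h5 : (H : ℝ) ≤ H * k := by
    have : (0 : ℝ) ≤ H := Nat.cast_nonneg H
    nlinarith
  nlinarith

end

end Pool.Agent.Q120.TT
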