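import Pool.Agent.Q120.TT.Main

/-!
# Project TT, assembly, part two: from the blocks to the asymptotic formula (deterministic)
-/

set_option autoImplicit false

namespace Pool.Agent.Q120.TT

open Finset MeasureTheory Filter Pool.Agent.Q120.ET Pool.Agent.Q120.GM Pool.Agent.Q120.CL Pool.Agent.Q120.MG
  Pool.Agent.Q120.HL Pool.Agent.Q112.LE
open scoped Topology

/-- The Hardy–Littlewood asymptotics. -/
def Asym (S : Set ℕ) (D : Finset ℕ) : Prop :=
  Tendsto (fun x : ℕ => (tupI S D 0 (x + 1) : ℝ) / (x / Real.log x ^ D.card)) atTop (𝓝 (SS D))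

/-- The block contains a tuple. -/
def Hit (S : Set ℕ) (D : Finset ℕ) (H k : ℕ) : Prop := ∃ n : ℕ, 2 ^ k ≤ n ∧ n + H < 2 ^ (k + 1) ∧ ∀ h ∈ D, n + h ∈ S

theorem contract {u η : ℕ → ℝ} (hu : ∀ k, 0 ≤ u k) (h : ∀ᶠ k in atTop, u (k + 1) ≤ 3 / 4 * (u k + η k))
    (hη : Tendsto η atTop (𝓝 0)) : Tendsto u atTop (𝓝 0) := by
  rw [Metric.tendsto_atTop]
  intro ε hε
  have h1 : ∀ᶠ k in atTop, η k < ε / 6 := hη.eventually (gt_mem_nhds (by positivity))
  obtain ⟨K, hK⟩ := eventually_atTop.1 (h.and h1)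
  have h2 : ∀ n, u (K + n) ≤ (3 / 4) ^ n * u K + ε / 2 := by
    intro n
    induction n with
    | zero => simp; linarith
    | succ n ih =>
      obtain ⟨h3, h4⟩ := hK (K + n) (by omega)
      have h5 : u (K + (n + 1)) ≤ 3 / 4 * (u (K + n) + η (K + n)) := h3
      have h6 : (3 / 4 : ℝ) ^ (n + 1) * u K = 3 / 4 * ((3 / 4) ^ n * u K) := by ring
      rw [h6]
      linarith
  have h3 : Tendsto (fun n : ℕ => (3 / 4 : ℝ) ^ n * u K) atTop (𝓝 0) := by
    have := (tendsto_pow_atTop_nhds_zero_of_lt_one (show (0 : ℝ) ≤ 3 / 4 by norm_num) (by norm_num)).mul_const (u K)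
    simpa using this
  obtain ⟨M, hM⟩ := eventually_atTop.1 (h3.eventually (gt_mem_nhds (show (0 : ℝ) < ε / 2 by positivity)))
  refine ⟨K + M, fun n hn => ?_⟩
  obtain ⟨m, rfl⟩ := Nat.exists_eq_add_of_le (show K ≤ n by omega)
  rw [Real.dist_eq, sub_zero, abs_of_nonneg (hu _)]
  have := h2 m
  have := hM m (by omega)
  linarith

theorem tupI_add (S : Set ℕ) (D : Finset ℕ) {a b c : ℕ} (h1 : a ≤ b) (h2 : b ≤ c) :
    tupI S D a c = tupI S D a b + tupI S D b c := by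
  classical
  unfold tupI
  rw [← Finset.card_union_of_disjoint]
  · rw [← filter_union, Ico_union_Ico_eq_Ico h1 h2]
  · exact disjoint_filter_filter (Ico_disjoint_Ico_consecutive a b c)

theorem tupI_le (S : Set ℕ) (D : Finset ℕ) (a b : ℕ) : tupI S D a b ≤ b - a := by
  classical
  unfold tupI
  refine (card_filter_le _ _).trans ?_
  rw [Nat.card_Ico]

section

variable {z : ℕ → ℕ} {D : Finset ℕ} {H : ℕ}

/-- The law in each block. -/
theorem block_law (J : Jobs) (hz : Tendsto z atTop atTop) (hz8 : ∀ᶠ k : ℕ in atTop, 8 * z k ≤ k) (hD : D.Nonempty)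
    (hH : ∀ h ∈ D, h ≤ H) {S : Set ℕ} (hS : ∀ e : ℝ, 0 < e → ∀ᶠ k : ℕ in atTop, ¬ Bad (pr z) D H k e S) {e : ℝ} (he : 0 < e) :
    ∀ᶠ k : ℕ in atTop, ∀ b : ℕ, 2 ^ k ≤ b → b ≤ 2 ^ (k + 1) →
      |(tupI S D (2 ^ k) b : ℝ) - SS D / Real.log 2 ^ D.card * (((b : ℝ) - 2 ^ k) / (k : ℝ) ^ D.card)| ≤
        e * (2 ^ k / (k : ℝ) ^ D.card) := by
  obtain ⟨c, hc⟩ : ∃ c : ℝ, c = SS D / Real.log 2 ^ D.card := ⟨_, rfl⟩
  have hl : 0 < Real.log 2 := Real.log_pos (by norm_num)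
  have hc0 : 0 ≤ c := by rw [hc]; exact div_nonneg (SS_nonneg D) (by positivity)
  have hpos : 0 < e * Real.log 2 ^ D.card / 4 := by positivity
  filter_upwards [hS (e / 4) (by positivity), J.mean z D H hz hz8 hD hH _ hpos, eventually_ge_atTop (H + 1),
    pow_large (((H : ℝ) + c * H)) D.card (show 0 < e / 4 by positivity)] with k h1 h2 hk h3 b hb1 hb2
  have hk0 : (0 : ℝ) < k := by exact_mod_cast (show 0 < k by omega)
  have hk1 : (1 : ℝ) ≤ k := by exact_mod_cast (show 1 ≤ k by omega)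
  have hH2 : H ≤ 2 ^ k := (show H ≤ k by omega).trans Nat.lt_two_pow_self.le
  obtain ⟨w, hw⟩ : ∃ w : ℝ, w = 2 ^ k / (k : ℝ) ^ D.card := ⟨_, rfl⟩
  rw [← hw] at h3 ⊢
  rw [← hc]
  have h4 : ∀ b : ℕ, 2 ^ k ≤ b → b + H ≤ 2 ^ (k + 1) →
      |(tupI S D (2 ^ k) b : ℝ) - c * (((b : ℝ) - 2 ^ k) / (k : ℝ) ^ D.card)| ≤ e / 2 * w := by
    intro b hb1 hb2
    have h5 : |(tupI S D (2 ^ k) b : ℝ) - EI (pr z) D (2 ^ k) b| < e / 4 * w := by
      by_contra hcon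
      rw [not_lt] at hcon
      exact h1 ⟨b, hb1, hb2, by rw [← hw]; exact hcon⟩
    have h6 := h2 (2 ^ k) b le_rfl hb1 hb2
    have h7 : SS D * ((b : ℝ) - (2 ^ k : ℕ)) / (k * Real.log 2) ^ D.card = c * (((b : ℝ) - 2 ^ k) / (k : ℝ) ^ D.card) := by
      rw [hc, mul_pow]
      push_cast
      field_simp
    have h8 : e * Real.log 2 ^ D.card / 4 * (2 ^ k / (k * Real.log 2) ^ D.card) = e / 4 * w := by
      rw [hw, mul_pow]
      field_simp
    rw [h7, h8] at h6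
    have h9 := abs_sub_le (tupI S D (2 ^ k) b : ℝ) (EI (pr z) D (2 ^ k) b) (c * (((b : ℝ) - 2 ^ k) / (k : ℝ) ^ D.card))
    linarith
  by_cases hb3 : b + H ≤ 2 ^ (k + 1)
  · have h5 := h4 b hb1 hb3
    have hw0 : 0 ≤ w := by rw [hw]; positivity
    nlinarith
  · rw [not_le] at hb3
    obtain ⟨b', hb'⟩ : ∃ b', b' = 2 ^ (k + 1) - H := ⟨_, rfl⟩
    have hp : 2 ^ (k + 1) = 2 * 2 ^ k := by rw [pow_succ]; ring
    have hb'1 : 2 ^ k ≤ b' := by omega
    have hb'2 : b' + H ≤ 2 ^ (k + 1) := by omega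
    have hb'3 : b' ≤ b := by omega
    have h5 := h4 b' hb'1 hb'2
    have h6 := tupI_add S D hb'1 hb'3
    have h7 : (tupI S D b' b : ℝ) ≤ H := by
      have := tupI_le S D b' b
      have h8 : tupI S D b' b ≤ H := by omega
      exact_mod_cast h8
    have h8 : (0 : ℝ) ≤ tupI S D b' b := Nat.cast_nonneg _
    rw [h6]
    push_cast
    have h9 : 0 ≤ c * (((b : ℝ) - 2 ^ k) / (k : ℝ) ^ D.card) - c * (((b' : ℝ) - 2 ^ k) / (k : ℝ) ^ D.card) ∧
        c * (((b : ℝ) - 2 ^ k) / (k : ℝ) ^ D.card) - c * (((b' : ℝ) - 2 ^ k) / (k : ℝ) ^ D.card) ≤ c * H := by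
      have e1 : c * (((b : ℝ) - 2 ^ k) / (k : ℝ) ^ D.card) - c * (((b' : ℝ) - 2 ^ k) / (k : ℝ) ^ D.card) =
          c * (((b : ℝ) - b') / (k : ℝ) ^ D.card) := by ring
      have e2 : (0 : ℝ) ≤ (b : ℝ) - b' := by
        have : (b' : ℝ) ≤ b := by exact_mod_cast hb'3
        linarith
      have e3 : (b : ℝ) - b' ≤ H := by
        have : b ≤ b' + H := by omega
        have : (b : ℝ) ≤ b' + H := by exact_mod_cast this
        linarith
      rw [e1]
      refine ⟨by positivity, mul_le_mul_of_nonneg_left ?_ hc0⟩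
      exact (div_le_self e2 (one_le_pow₀ hk1)).trans e3
    have h10 := abs_le.1 h5
    have h11 : ((H : ℝ) + c * H) * 1 ≤ ((H : ℝ) + c * H) * k := mul_le_mul_of_nonneg_left hk1 (by positivity)
    have h12 : 0 ≤ c * (H : ℝ) := by positivity
    have h13 : (0 : ℝ) ≤ H := Nat.cast_nonneg H
    rw [abs_le]
    constructor <;> nlinarith [h9.1, h9.2, h10.1, h10.2]

theorem wratio (r : ℕ) : Tendsto (fun k : ℕ => ((2 : ℝ) ^ k / (k : ℝ) ^ r) / (2 ^ (k + 1) / ((k : ℝ) + 1) ^ r)) atTop (𝓝 (1 / 2)) := by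
  have h1 : Tendsto (fun k : ℕ => (((k : ℝ) + 1) / k) ^ r * (1 / 2)) atTop (𝓝 (1 ^ r * (1 / 2))) := by
    refine (Tendsto.pow ?_ r).mul_const _
    have h2 : Tendsto (fun k : ℕ => 1 + 1 / (k : ℝ)) atTop (𝓝 (1 + 0)) := tendsto_const_nhds.add tendsto_one_div_atTop_nhds_zero_nat
    rw [add_zero] at h2
    refine h2.congr' ?_
    filter_upwards [eventually_ge_atTop 1] with k hk
    have hk0 : (k : ℝ) ≠ 0 := by
      have : (0 : ℝ) < k := by exact_mod_cast hk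
      exact this.ne'
    field_simp
  rw [one_pow, one_mul] at h1
  refine h1.congr' ?_
  filter_upwards [eventually_ge_atTop 1] with k hk
  have hk0 : (k : ℝ) ≠ 0 := by
    have : (0 : ℝ) < k := by exact_mod_cast hk
    exact this.ne'
  have hk1 : ((k : ℝ) + 1) ≠ 0 := by positivity
  rw [div_pow]
  field_simp
  ring

/-- The number of tuples below `2 ^ k`. -/
theorem cum (J : Jobs) (hz : Tendsto z atTop atTop) (hz8 : ∀ᶠ k : ℕ in atTop, 8 * z k ≤ k) (hD : D.Nonempty)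
    (hH : ∀ h ∈ D, h ≤ H) {S : Set ℕ} (hS : ∀ e : ℝ, 0 < e → ∀ᶠ k : ℕ in atTop, ¬ Bad (pr z) D H k e S) :
    Tendsto (fun k : ℕ => |(tupI S D 0 (2 ^ k) : ℝ) - SS D / Real.log 2 ^ D.card * (2 ^ k / (k : ℝ) ^ D.card)| /
      (2 ^ k / (k : ℝ) ^ D.card)) atTop (𝓝 0) := by
  obtain ⟨c, hc⟩ : ∃ c : ℝ, c = SS D / Real.log 2 ^ D.card := ⟨_, rfl⟩
  obtain ⟨r, hr⟩ : ∃ r, r = D.card := ⟨_, rfl⟩
  rw [← hc, ← hr]
  have hl : 0 < Real.log 2 := Real.log_pos (by norm_num)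
  have hc0 : 0 ≤ c := by rw [hc]; exact div_nonneg (SS_nonneg D) (by positivity)
  obtain ⟨w, hw⟩ : ∃ w : ℕ → ℝ, w = fun k : ℕ => (2 : ℝ) ^ k / (k : ℝ) ^ r := ⟨_, rfl⟩
  obtain ⟨e, he⟩ : ∃ e : ℕ → ℝ, e = fun k : ℕ => |(tupI S D (2 ^ k) (2 ^ (k + 1)) : ℝ) - c * w k| / w k := ⟨_, rfl⟩
  have hw0 : ∀ k, 1 ≤ k → 0 < w k := by
    intro k hk
    have : (0 : ℝ) < k := by exact_mod_cast hk
    rw [hw]
    positivity
  have he0 : Tendsto e atTop (𝓝 0) := by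
    rw [Metric.tendsto_atTop']
    intro ε hε
    obtain ⟨K, hK⟩ := eventually_atTop.1 (block_law J hz hz8 hD hH hS (show 0 < ε / 2 by positivity))
    refine ⟨max K 1, fun k hk => ?_⟩
    have hkK : K ≤ k := (le_max_left K 1).trans hk.le
    have hk1 : 1 ≤ k := (le_max_right K 1).trans hk.le
    have h1 := hK k hkK (2 ^ (k + 1)) (Nat.pow_le_pow_right (by norm_num) (by omega)) le_rfl
    have h2 := hw0 k hk1
    rw [Real.dist_eq, sub_zero, he, abs_of_nonneg (by positivity), div_lt_iff₀ h2]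
    have h3 : c * ((((2 ^ (k + 1) : ℕ) : ℝ) - 2 ^ k) / (k : ℝ) ^ D.card) = c * w k := by
      rw [hw, hr]
      push_cast
      rw [pow_succ]
      ring
    rw [← hc, h3] at h1
    have h4 : (2 : ℝ) ^ k / (k : ℝ) ^ D.card = w k := by rw [hw, hr]
    rw [h4] at h1
    nlinarith
  obtain ⟨ρ, hρ⟩ : ∃ ρ : ℕ → ℝ, ρ = fun k => w k / w (k + 1) := ⟨_, rfl⟩
  have hρ1 : Tendsto ρ atTop (𝓝 (1 / 2)) := by
    refine (wratio r).congr (fun k => ?_)
    rw [hρ, hw]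
    push_cast
    rfl
  obtain ⟨η, hη⟩ : ∃ η : ℕ → ℝ, η = fun k => c * |1 - (ρ k)⁻¹ / 2| * 2 + e k := ⟨_, rfl⟩
  have hη0 : Tendsto η atTop (𝓝 0) := by
    have h1 : Tendsto (fun k => c * |1 - (ρ k)⁻¹ / 2| * 2 + e k) atTop (𝓝 (c * |1 - (1 / 2 : ℝ)⁻¹ / 2| * 2 + 0)) := by
      refine Tendsto.add (Tendsto.mul_const 2 (Tendsto.const_mul c (Tendsto.abs ?_))) he0
      exact tendsto_const_nhds.sub ((hρ1.inv₀ (by norm_num)).div_const 2)
    have h2 : c * |1 - (1 / 2 : ℝ)⁻¹ / 2| * 2 + 0 = 0 := by norm_num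
    rw [h2] at h1
    rw [hη]
    exact h1
  refine contract (η := η) (fun k => by positivity) ?_ hη0
  filter_upwards [eventually_ge_atTop 1, hρ1.eventually (gt_mem_nhds (show (1 / 2 : ℝ) < 3 / 4 by norm_num))] with k hk hρk
  have hwk := hw0 k hk
  have hwk1 := hw0 (k + 1) (by omega)
  have e1 : (2 : ℝ) ^ k / (k : ℝ) ^ r = w k := by rw [hw]
  have e2 : (2 : ℝ) ^ (k + 1) / ((k + 1 : ℕ) : ℝ) ^ r = w (k + 1) := by rw [hw]
  rw [e1, e2]
  have h1 := tupI_add S D (Nat.zero_le (2 ^ k)) (show 2 ^ k ≤ 2 ^ (k + 1) from Nat.pow_le_pow_right (by norm_num) (by omega))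
  rw [h1]
  push_cast
  obtain ⟨N, hN⟩ : ∃ N : ℝ, N = tupI S D 0 (2 ^ k) := ⟨_, rfl⟩
  obtain ⟨X, hX⟩ : ∃ X : ℝ, X = tupI S D (2 ^ k) (2 ^ (k + 1)) := ⟨_, rfl⟩
  rw [← hN, ← hX]
  have h2 : |N + X - c * w (k + 1)| ≤ |N - c * w k| + |X - c * w k| + |2 * (c * w k) - c * w (k + 1)| := by
    have e3 : N + X - c * w (k + 1) = (N - c * w k) + (X - c * w k) + (2 * (c * w k) - c * w (k + 1)) := by ring
    rw [e3]
    exact abs_add_three _ _ _
  have h3 : |X - c * w k| = e k * w k := by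
    rw [he, hX]
    field_simp
  have h4 : |2 * (c * w k) - c * w (k + 1)| = c * |1 - (ρ k)⁻¹ / 2| * 2 * w k := by
    have e4 : 2 * (c * w k) - c * w (k + 1) = 2 * c * w k * (1 - (ρ k)⁻¹ / 2) := by
      have hne := hwk.ne'
      have hne1 := hwk1.ne'
      simp only [hρ]
      rw [inv_div]
      field_simp
    rw [e4, abs_mul, abs_of_nonneg (by positivity)]
    ring
  have h5 : ρ k = w k / w (k + 1) := by rw [hρ]
  have h6 : 0 ≤ |N - c * w k| / w k + η k := by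
    have : 0 ≤ e k := by rw [he]; positivity
    have : 0 ≤ η k := by rw [hη]; positivity
    positivity
  obtain ⟨E, hE⟩ : ∃ E : ℝ, E = c * |1 - (ρ k)⁻¹ / 2| * 2 := ⟨_, rfl⟩
  have hηk : η k = E + e k := by rw [hη, hE]
  rw [← hE] at h4
  calc |N + X - c * w (k + 1)| / w (k + 1) ≤ (|N - c * w k| + e k * w k + E * w k) / w (k + 1) := by
        refine div_le_div_of_nonneg_right ?_ hwk1.le
        rw [← h3, ← h4]
        exact h2
    _ = (|N - c * w k| / w k + η k) * ρ k := by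
        rw [h5, hηk]
        field_simp
        ring
    _ ≤ (|N - c * w k| / w k + η k) * (3 / 4) := mul_le_mul_of_nonneg_left hρk.le h6
    _ = 3 / 4 * (|N - c * w k| / w k + η k) := by ring

end

end Pool.Agent.Q120.TT
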