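import Pool.Agent.Q120.TT.Asy

/-!
# Project TT, assembly, part four: the thresholds
-/

set_option autoImplicit false

namespace Pool.Agent.Q120.TT

open Finset MeasureTheory Filter Pool.Agent.Q120.ET Pool.Agent.Q120.GM Pool.Agent.Q120.CL Pool.Agent.Q120.MG
  Pool.Agent.Q120.HL Pool.Agent.Q112.LE
open scoped Topology

/-- Every random set of the class almost surely has the property `P`. -/
def AllNear (p d : ℕ → ℝ) (P : Set ℕ → Prop) : Prop :=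
  ∀ (Ω : Type) [MeasurableSpace Ω] (μ : Measure Ω) [IsProbabilityMeasure μ] (A : Ω → Set ℕ), Near p d μ A →
    ∀ᵐ ω ∂μ, P (A ω)

/-- Some random set of the class almost surely has the property `P`. -/
def SomeNear (p d : ℕ → ℝ) (P : Set ℕ → Prop) : Prop :=
  ∃ (Ω : Type) (_ : MeasurableSpace Ω) (μ : Measure Ω) (_ : IsProbabilityMeasure μ) (A : Ω → Set ℕ), Near p d μ A ∧
    ∀ᵐ ω ∂μ, P (A ω)

/-- For every random set of the class the probability of `P k` tends to zero. -/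
def VanNear (p d : ℕ → ℝ) (P : ℕ → Set ℕ → Prop) : Prop :=
  ∀ (Ω : Type) [MeasurableSpace Ω] (μ : Measure Ω) [IsProbabilityMeasure μ] (A : Ω → Set ℕ), Near p d μ A →
    Tendsto (fun k => μ.real {ω | P k (A ω)}) atTop (𝓝 0)

/-- The number of tuples in the block is wrong. -/
def Off (D : Finset ℕ) (e : ℝ) (k : ℕ) (S : Set ℕ) : Prop :=
  e * (2 ^ k / (k : ℝ) ^ D.card) ≤ |(tupI S D (2 ^ k) (2 ^ (k + 1)) : ℝ) - SS D * (2 ^ k / (k * Real.log 2) ^ D.card)|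

theorem not_all {p d : ℕ → ℝ} {P Q : Set ℕ → Prop} (h : SomeNear p d P) (hPQ : ∀ S, P S → ¬ Q S) : ¬ AllNear p d Q := by
  intro h2
  obtain ⟨Ω, hΩ, μ, hμ, A, hA, h3⟩ := h
  have h4 := h2 Ω μ A hA
  have h5 : ∀ᵐ ω ∂μ, False := by
    filter_upwards [h3, h4] with ω h6 h7
    exact hPQ _ h6 h7
  exact (Filter.eventually_false_iff_eq_bot.1 h5 ▸ (inferInstance : (ae μ).NeBot)).ne rfl

theorem div_w {r k : ℕ} (hk : 1 ≤ k) {c x : ℝ} (hc : 0 < c) :
    x / (c * (2 ^ k / (k : ℝ) ^ r)) = 1 / c * (x * (k : ℝ) ^ r / 2 ^ k) := by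
  have : (0 : ℝ) < k := by exact_mod_cast hk
  field_simp

theorem pow_sum (r : ℕ) : Summable (fun k : ℕ => (k : ℝ) ^ r / 2 ^ k) := by
  have h := summable_pow_mul_geometric_of_norm_lt_one r (r := (1 / 2 : ℝ)) (by norm_num)
  refine h.congr (fun k => ?_)
  rw [one_div, inv_pow]
  rfl

section

variable {z : ℕ → ℕ} {D : Finset ℕ} {H : ℕ} {d : ℕ → ℝ}

/-! ## Positive results -/

theorem all_asym (J : Jobs) (hz : Tendsto z atTop atTop) (hz8 : ∀ᶠ k : ℕ in atTop, 8 * z k ≤ k) (hD : D.Nonempty)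
    (hH : ∀ h ∈ D, h ≤ H) (hs : Summable (fun k : ℕ => d k * (k : ℝ) ^ D.card / 2 ^ k)) :
    AllNear (pr z) d (fun S => Asym S D) := by
  intro Ω _ μ _ A hA
  have h1 : ∀ j : ℕ, ∀ᵐ ω ∂μ, ∀ᶠ k : ℕ in atTop, ¬ Bad (pr z) D H k (1 / ((j : ℝ) + 1)) (A ω) := by
    intro j
    obtain ⟨c, hc, h⟩ := bad_near J hz hz8 hD hH (e := 1 / ((j : ℝ) + 1)) (by positivity)
    have h2 := h Ω μ A d hA
    have h3 : Summable (fun k : ℕ => 1 / c * ((k : ℝ) ^ D.card / 2 ^ k) + 1 / c * (d k * (k : ℝ) ^ D.card / 2 ^ k)) :=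
      ((pow_sum D.card).mul_left _).add (hs.mul_left _)
    refine bc (μ := μ) (B := fun k => {ω | Bad (pr z) D H k (1 / ((j : ℝ) + 1)) (A ω)}) h3 ?_
    filter_upwards [h2, eventually_ge_atTop 1] with k hk hk1
    refine hk.trans (le_of_eq ?_)
    rw [div_w hk1 hc]
    ring
  filter_upwards [ae_all_iff.2 h1] with ω hω
  refine asym_of_good J hz hz8 hD hH (fun e he => ?_)
  obtain ⟨j, hj⟩ := exists_nat_one_div_lt he
  filter_upwards [hω j] with k hk hbad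
  apply hk
  obtain ⟨b, hb1, hb2, hb3⟩ := hbad
  refine ⟨b, hb1, hb2, le_trans ?_ hb3⟩
  exact mul_le_mul_of_nonneg_right hj.le (by positivity)

/-- In probability. -/
theorem off_bad (J : Jobs) (hz : Tendsto z atTop atTop) (hz8 : ∀ᶠ k : ℕ in atTop, 8 * z k ≤ k) (hD : D.Nonempty)
    (hH : ∀ h ∈ D, h ≤ H) {e : ℝ} (he : 0 < e) : ∀ᶠ k : ℕ in atTop, ∀ S : Set ℕ, Off D e k S → Bad (pr z) D H k (e / 4) S := by
  have hl : 0 < Real.log 2 := Real.log_pos (by norm_num)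
  obtain ⟨c, hc⟩ : ∃ c : ℝ, c = SS D / Real.log 2 ^ D.card := ⟨_, rfl⟩
  have hc0 : 0 ≤ c := by rw [hc]; exact div_nonneg (SS_nonneg D) (by positivity)
  filter_upwards [J.mean z D H hz hz8 hD hH (e * Real.log 2 ^ D.card / 4) (by positivity), eventually_ge_atTop (H + 1),
    pow_large (((H : ℝ) + c * H)) D.card (show 0 < e / 4 by positivity)] with k h2 hk h3 S hoff
  have hk0 : (0 : ℝ) < k := by exact_mod_cast (show 0 < k by omega)
  have hk1 : (1 : ℝ) ≤ k := by exact_mod_cast (show 1 ≤ k by omega)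
  have hH2 : H ≤ 2 ^ k := (show H ≤ k by omega).trans Nat.lt_two_pow_self.le
  have hp : 2 ^ (k + 1) = 2 * 2 ^ k := by rw [pow_succ]; ring
  obtain ⟨b, hb⟩ : ∃ b, b = 2 ^ (k + 1) - H := ⟨_, rfl⟩
  have hb1 : 2 ^ k ≤ b := by omega
  have hb2 : b + H ≤ 2 ^ (k + 1) := by omega
  have hb3 : b ≤ 2 ^ (k + 1) := by omega
  refine ⟨b, hb1, hb2, ?_⟩
  obtain ⟨w, hw⟩ : ∃ w : ℝ, w = 2 ^ k / (k : ℝ) ^ D.card := ⟨_, rfl⟩
  unfold Off at hoff
  rw [← hw] at h3 hoff ⊢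
  have h6 := h2 (2 ^ k) b le_rfl hb1 hb2
  have h7 : SS D * ((b : ℝ) - (2 ^ k : ℕ)) / (k * Real.log 2) ^ D.card = c * (((b : ℝ) - 2 ^ k) / (k : ℝ) ^ D.card) := by
    rw [hc, mul_pow]
    push_cast
    field_simp
  have h8 : e * Real.log 2 ^ D.card / 4 * (2 ^ k / (k * Real.log 2) ^ D.card) = e / 4 * w := by
    rw [hw, mul_pow]
    field_simp
  rw [h7, h8] at h6
  have h9 : SS D * (2 ^ k / (k * Real.log 2) ^ D.card) = c * w := by
    rw [hw, hc, mul_pow]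
    field_simp
  rw [h9] at hoff
  have h10 := tupI_add S D hb1 hb3
  rw [h10] at hoff
  push_cast at hoff
  have h11 : (tupI S D b (2 ^ (k + 1)) : ℝ) ≤ H := by
    have := tupI_le S D b (2 ^ (k + 1))
    have h12 : tupI S D b (2 ^ (k + 1)) ≤ H := by omega
    exact_mod_cast h12
  have h12 : (0 : ℝ) ≤ tupI S D b (2 ^ (k + 1)) := Nat.cast_nonneg _
  have h13 : |c * w - c * (((b : ℝ) - 2 ^ k) / (k : ℝ) ^ D.card)| ≤ c * H := by
    have e1 : c * w - c * (((b : ℝ) - 2 ^ k) / (k : ℝ) ^ D.card) = c * ((2 ^ (k + 1) - (b : ℝ)) / (k : ℝ) ^ D.card) := by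
      rw [hw, pow_succ]
      ring
    have e2 : (2 : ℝ) ^ (k + 1) - b = H := by
      have : b + H = 2 ^ (k + 1) := by omega
      have : (b : ℝ) + H = 2 ^ (k + 1) := by exact_mod_cast this
      linarith
    rw [e1, e2, abs_of_nonneg (by positivity)]
    refine mul_le_mul_of_nonneg_left ?_ hc0
    exact div_le_self (Nat.cast_nonneg H) (one_le_pow₀ hk1)
  have h14 : ((H : ℝ) + c * H) * 1 ≤ ((H : ℝ) + c * H) * k := mul_le_mul_of_nonneg_left hk1 (by positivity)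
  obtain ⟨X, hX⟩ : ∃ X : ℝ, X = tupI S D (2 ^ k) b := ⟨_, rfl⟩
  obtain ⟨Y, hY⟩ : ∃ Y : ℝ, Y = tupI S D b (2 ^ (k + 1)) := ⟨_, rfl⟩
  obtain ⟨E, hE⟩ : ∃ E : ℝ, E = EI (pr z) D (2 ^ k) b := ⟨_, rfl⟩
  obtain ⟨M, hM⟩ : ∃ M : ℝ, M = c * (((b : ℝ) - 2 ^ k) / (k : ℝ) ^ D.card) := ⟨_, rfl⟩
  rw [← hX, ← hY] at hoff
  rw [← hY] at h11 h12
  rw [← hE, ← hM] at h6
  rw [← hM] at h13
  rw [← hX, ← hE]
  have h15 : |X + Y - c * w| ≤ |X - E| + |E - M| + |M - c * w| + |Y| := by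
    have e1 : X + Y - c * w = (X - E) + (E - M) + ((M - c * w) + Y) := by ring
    rw [e1]
    refine (abs_add_three _ _ _).trans ?_
    have := abs_add_le (M - c * w) Y
    linarith
  rw [abs_sub_comm M, abs_of_nonneg h12] at h15
  nlinarith

theorem van_off (J : Jobs) (hz : Tendsto z atTop atTop) (hz8 : ∀ᶠ k : ℕ in atTop, 8 * z k ≤ k) (hD : D.Nonempty)
    (hH : ∀ h ∈ D, h ≤ H) (hs : Tendsto (fun k : ℕ => d k * (k : ℝ) ^ D.card / 2 ^ k) atTop (𝓝 0)) {e : ℝ} (he : 0 < e) :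
    VanNear (pr z) d (fun k S => Off D e k S) := by
  intro Ω _ μ _ A hA
  obtain ⟨c, hc, h⟩ := bad_near J hz hz8 hD hH (e := e / 4) (by positivity)
  have h1 : Tendsto (fun k : ℕ => 1 / c * ((k : ℝ) ^ D.card / 2 ^ k) + 1 / c * (d k * (k : ℝ) ^ D.card / 2 ^ k)) atTop
      (𝓝 (1 / c * 0 + 1 / c * 0)) := ((pow_sum D.card).tendsto_atTop_zero.const_mul _).add (hs.const_mul _)
  rw [mul_zero, add_zero] at h1
  refine squeeze_zero' (Eventually.of_forall (fun k => measureReal_nonneg)) ?_ h1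
  filter_upwards [h Ω μ A d hA, off_bad J hz hz8 hD hH he, eventually_ge_atTop 1] with k hk hk2 hk1
  have h2 : μ.real {ω | Off D e k (A ω)} ≤ μ.real {ω | Bad (pr z) D H k (e / 4) (A ω)} :=
    measureReal_mono (fun ω hω => hk2 _ hω) (measure_ne_top _ _)
  refine h2.trans (hk.trans (le_of_eq ?_))
  rw [div_w hk1 hc]
  ring

/-- A block without tuples is wrong. -/
theorem off_of_not_hit (hSS : 0 < SS D) : ∀ᶠ k : ℕ in atTop, ∀ S : Set ℕ, ¬ Hit S D H k →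
    Off D (SS D / Real.log 2 ^ D.card / 2) k S := by
  have hl : 0 < Real.log 2 := Real.log_pos (by norm_num)
  obtain ⟨c, hc⟩ : ∃ c : ℝ, c = SS D / Real.log 2 ^ D.card := ⟨_, rfl⟩
  have hc0 : 0 < c := by rw [hc]; positivity
  rw [← hc]
  filter_upwards [pow_large (H : ℝ) D.card (show 0 < c / 2 by positivity), eventually_ge_atTop 1] with k h3 hk S hS
  have hk0 : (0 : ℝ) < k := by exact_mod_cast (show 0 < k by omega)
  have hk1 : (1 : ℝ) ≤ k := by exact_mod_cast (show 1 ≤ k by omega)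
  have h4 : (tupI S D (2 ^ k) (2 ^ (k + 1)) : ℝ) ≤ H := by
    classical
    have h5 : tupI S D (2 ^ k) (2 ^ (k + 1)) ≤ H := by
      unfold tupI
      have h6 : (Ico (2 ^ k) (2 ^ (k + 1))).filter (fun n => ∀ h ∈ D, n + h ∈ S) ⊆ Ico (2 ^ (k + 1) - H) (2 ^ (k + 1)) := by
        intro n hn
        rw [mem_filter, mem_Ico] at hn
        rw [mem_Ico]
        refine ⟨?_, hn.1.2⟩
        by_contra h7
        exact hS ⟨n, hn.1.1, by omega, hn.2⟩
      refine (card_le_card h6).trans ?_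
      rw [Nat.card_Ico]
      omega
    exact_mod_cast h5
  unfold Off
  have h9 : SS D * (2 ^ k / (k * Real.log 2) ^ D.card) = c * (2 ^ k / (k : ℝ) ^ D.card) := by
    rw [hc, mul_pow]
    field_simp
  rw [h9]
  obtain ⟨w, hw⟩ : ∃ w : ℝ, w = 2 ^ k / (k : ℝ) ^ D.card := ⟨_, rfl⟩
  rw [← hw] at h3 ⊢
  have h5 : (H : ℝ) ≤ H * k := by
    have : (0 : ℝ) ≤ H := Nat.cast_nonneg H
    nlinarith
  rw [abs_sub_comm]
  refine le_trans ?_ (le_abs_self _)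
  nlinarith

/-- Infinitely many tuples. -/
theorem all_inf (J : Jobs) (hz : Tendsto z atTop atTop) (hz8 : ∀ᶠ k : ℕ in atTop, 8 * z k ≤ k) (hD : D.Nonempty)
    (hH : ∀ h ∈ D, h ≤ H) (hSS : 0 < SS D) (hs : ∀ c : ℝ, 0 < c → ∃ᶠ k : ℕ in atTop, d k * (k : ℝ) ^ D.card / 2 ^ k < c) :
    AllNear (pr z) d (fun S => {n : ℕ | ∀ h ∈ D, n + h ∈ S}.Infinite) := by
  intro Ω _ μ _ A hA
  have hl : 0 < Real.log 2 := Real.log_pos (by norm_num)
  obtain ⟨e, he⟩ : ∃ e : ℝ, e = SS D / Real.log 2 ^ D.card / 2 := ⟨_, rfl⟩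
  have he0 : 0 < e := by rw [he]; positivity
  obtain ⟨c, hc, h⟩ := bad_near J hz hz8 hD hH (e := e / 4) (by positivity)
  have h1 : ∀ N : ℕ, μ {ω | ∀ n : ℕ, N ≤ n → ¬ ∀ h ∈ D, n + h ∈ A ω} = 0 := by
    intro N
    obtain ⟨E, hE⟩ : ∃ E : Set Ω, E = {ω | ∀ n : ℕ, N ≤ n → ¬ ∀ h ∈ D, n + h ∈ A ω} := ⟨_, rfl⟩
    rw [← hE]
    have h2 : ∀ ε : ℝ, 0 < ε → μ.real E ≤ ε := by
      intro ε hε
      have e1 : ∀ᶠ k : ℕ in atTop, (k : ℝ) ^ D.card / 2 ^ k < c * ε / 2 :=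
        (pow_sum D.card).tendsto_atTop_zero.eventually (gt_mem_nhds (by positivity))
      have e2 : ∀ᶠ k : ℕ in atTop, N ≤ 2 ^ k := by
        filter_upwards [eventually_ge_atTop N] with k hk
        exact hk.trans Nat.lt_two_pow_self.le
      have e3 := ((((h Ω μ A d hA).and (off_bad J hz hz8 hD hH he0)).and
        ((off_of_not_hit (H := H) hSS).and (eventually_ge_atTop 1))).and (e1.and e2))
      obtain ⟨k, hk, ⟨⟨hk1, hk2⟩, hk3, hk4⟩, hk5, hk6⟩ := ((hs (c * ε / 2) (by positivity)).and_eventually e3).exists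
      have e4 : E ⊆ {ω | Bad (pr z) D H k (e / 4) (A ω)} := by
        intro ω hω
        rw [hE] at hω
        refine hk2 _ ?_
        rw [he]
        refine hk3 _ ?_
        rintro ⟨n, hn1, hn2, hn3⟩
        exact hω n (hk6.trans hn1) hn3
      have e5 : μ.real E ≤ μ.real {ω | Bad (pr z) D H k (e / 4) (A ω)} := measureReal_mono e4 (measure_ne_top _ _)
      refine e5.trans (hk1.trans ?_)
      rw [div_w hk4 hc, add_mul, one_mul, add_div]
      have e6 : (k : ℝ) ^ D.card / 2 ^ k + d k * (k : ℝ) ^ D.card / 2 ^ k ≤ c * ε := by linarith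
      calc 1 / c * ((k : ℝ) ^ D.card / 2 ^ k + d k * (k : ℝ) ^ D.card / 2 ^ k) ≤ 1 / c * (c * ε) :=
            mul_le_mul_of_nonneg_left e6 (by positivity)
        _ = ε := by field_simp
    have h3 : μ.real E = 0 := le_antisymm (le_of_forall_pos_le_add (fun ε hε => by simpa using h2 ε hε)) measureReal_nonneg
    exact (measureReal_eq_zero_iff).1 h3
  have h2 : ∀ᵐ ω ∂μ, ∀ N : ℕ, ¬ ∀ n : ℕ, N ≤ n → ¬ ∀ h ∈ D, n + h ∈ A ω := by
    rw [ae_all_iff]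
    intro N
    rw [ae_iff]
    have e1 : {ω | ¬ ¬ ∀ n : ℕ, N ≤ n → ¬ ∀ h ∈ D, n + h ∈ A ω} = {ω | ∀ n : ℕ, N ≤ n → ¬ ∀ h ∈ D, n + h ∈ A ω} := by
      ext ω
      simp only [Set.mem_ofPred_eq, not_not]
    rw [e1]
    exact h1 N
  filter_upwards [h2] with ω hω
  rw [Set.infinite_iff_exists_gt]
  intro N
  have h3 := hω (N + 1)
  push Not at h3
  obtain ⟨n, hn, hn2⟩ := h3
  exact ⟨n, hn2, by omega⟩

end

end Pool.Agent.Q120.TT
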