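import Pool.Agent.Q120.HL.H4
import Pool.Agent.Q120.ET.Construct
import Pool.Agent.Q120.GM.Indep
import Pool.Agent.Q112.LE.Expo

/-!
# Project TT: three exact entropy thresholds for the Hardy–Littlewood tuples conjecture

Reference law: the sieved Cramér–Granville model of a level `z` (`z k → ∞`, `8 z k ≤ k`): `n ∈ [2 ^ k, 2 ^ (k + 1))` is in
the set independently with probability `pr z n` (`Q120.CL.C4`): `1 / (V log n)` if no prime `p < z k` divides `n`, else `0`,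
`V = Vf (z k) = ∏_{p < z k} (1 - 1/p)`. `A` is ANY random set of integers, `relEnt` the relative entropy of the law of
`A ∩ [2 ^ k, 2 ^ (k + 1))` with respect to the reference law, `D` a finite set of shifts, `r = |D|`, `SS D` its singular
series (`Q120.HL.H4`). Results of the project, assembled from the jobs, for the class of all `A` with `relEnt ≤ d k`:
(i) all `A`: almost surely the number of `n ≤ x` with `n + D ⊆ A` is `~ SS D x / log ^ r x` iff
`∑ d k * k ^ r / 2 ^ k < ∞` (iff almost surely all large blocks contain such an `n`); (ii) in probability, per block, iff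
`d k * k ^ r / 2 ^ k → 0`; (iii) almost surely infinitely many such `n` iff `liminf d k * k ^ r / 2 ^ k = 0`.

Each job is a definition `J_… : Prop`; a theorem `t_… : J_…` is to be proved. The proofs are complete in the docstrings.
Notation of `Q120.ET.Law`: `IsRandomSet`, `lawOn μ A B T` = probability of `A ∩ B = T`, `tr A B ω = A ω ∩ B`, `real_event`,
`block k = Ico (2 ^ k) (2 ^ (k + 1))`.
-/

set_option autoImplicit false

namespace Pool.Agent.Q120.TT

open Finset MeasureTheory Filter Pool.Agent.Q120.ET Pool.Agent.Q120.GM Pool.Agent.Q120.CL Pool.Agent.Q120.MG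
  Pool.Agent.Q120.HL Pool.Agent.Q112.LE
open scoped Topology

/-- The law of a model with independent elements. -/
noncomputable def prodOn (p : ℕ → ℝ) (B T : Finset ℕ) : ℝ := (∏ n ∈ T, p n) * ∏ n ∈ B \ T, (1 - p n)

/-- The relative entropy of a law `R` on the subsets of `B`. -/
noncomputable def entOf (p : ℕ → ℝ) (B : Finset ℕ) (R : Finset ℕ → ℝ) : ℝ :=
  ∑ T ∈ B.powerset, R T * Real.log (R T / prodOn p B T)

/-- The relative entropy of the law of `A ∩ B`. -/
noncomputable def relEnt {Ω : Type} [MeasurableSpace Ω] (p : ℕ → ℝ) (μ : Measure Ω) (A : Ω → Set ℕ) (B : Finset ℕ) : ℝ :=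
  entOf p B (lawOn μ A B)

/-- `R` is a probability on the subsets of `B`, absolutely continuous with respect to `prodOn p B`. -/
structure IsLaw (p : ℕ → ℝ) (B : Finset ℕ) (R : Finset ℕ → ℝ) : Prop where
  nonneg : ∀ T ∈ B.powerset, 0 ≤ R T
  total : ∑ T ∈ B.powerset, R T = 1
  cont : ∀ T ∈ B.powerset, prodOn p B T = 0 → R T = 0

open Classical in
/-- The number of `n ∈ [a, b)` with `n + D ⊆ S`. -/
noncomputable def tupI (S : Set ℕ) (D : Finset ℕ) (a b : ℕ) : ℕ := ((Ico a b).filter (fun n => ∀ h ∈ D, n + h ∈ S)).card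

/-- Its expectation in the model with independent elements. -/
noncomputable def EI (p : ℕ → ℝ) (D : Finset ℕ) (a b : ℕ) : ℝ := ∑ n ∈ Ico a b, ∏ h ∈ D, p (n + h)

open Classical in
/-- **Job ENTG.** The entropy inequality.
Proof. The proof of `Pool.Agent.Q120.ET.event_bound` / `entropy_bound` (modules `ET.Law`, `ET.Basic`) with `prodOn p B` in place of
`cramerOn B`: for the events of the law `R`, `R(F) u ≤ entOf + log (1 + e^u P(F)) ≤ entOf + 1` by the inequality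
`a log (a / b) ≥ a s - b e^s + b - ...` (`young`); with `P(F) ≤ e^(-u)`. (Donsker–Varadhan with the function `u 1_F`:
`u R(F) ≤ entOf + log (1 - P(F) + P(F) e^u) ≤ entOf + P(F) e^u`.) The `T` with `prodOn = 0` have `R T = 0`. -/
def J_ENTG : Prop := ∀ (p : ℕ → ℝ) (B : Finset ℕ), (∀ n ∈ B, 0 ≤ p n ∧ p n ≤ 1) → ∀ R : Finset ℕ → ℝ, IsLaw p B R →
  ∀ (F : Finset ℕ → Prop) (u : ℝ), 0 < u → ∑ T ∈ B.powerset with F T, prodOn p B T ≤ Real.exp (-u) →
    ∑ T ∈ B.powerset with F T, R T ≤ (1 + entOf p B R) / u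

open Classical in
/-- **Job TAILT.** Deviations of the number of tuples in the model with independent elements.
Proof. By `isModel` (`GM.Exists`) there is a model `A` with the probabilities `p`, and `∑ T ⊆ B with F T, prodOn p B T` is the
probability of `F (tr A B ω)` (`real_event` and `lawOn μ A B T = prodOn p B T`, see `Pool.Agent.Q111.GE.LAW`, `law_model`).
Let `M = H + 1`. For `c < M` the `n ∈ [a, b)` with `n ≡ c` modulo `M` have disjoint sets `n + D ⊆ block k`, so their events are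
`Mutual` (`indep_many`); `X_c` their number, `E_c` its mean, `∑ E_c = E = EI p D a b`. If `|X - E| ≥ t` then
`|X_c - E_c| ≥ t / M` for some `c`. Bernstein: `P(|X_c - E_c| ≥ s) ≤ 2 exp (-s ^ 2 / (4 (E_c + s)))` by `tail_up`, `tail_down`:
for `s ≤ E_c` use `κ = s / E_c`, `l = κ / 2` (up, `e^l - 1 ≤ l + l ^ 2`) resp. `l = κ` (down); for `s > E_c` the lower deviation
is impossible and `l = 1` gives `exp ((e - 1) E_c - (E_c + s)) ≤ exp (-s / 4)`. With `s = t / M`, `E_c + s ≤ V + t`. -/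
def J_TAILT : Prop := ∀ (D : Finset ℕ) (H : ℕ), D.Nonempty → (∀ h ∈ D, h ≤ H) →
  ∀ (p : ℕ → ℝ), (∀ n, 0 ≤ p n ∧ p n ≤ 1) → ∀ k a b : ℕ, 2 ^ k ≤ a → a ≤ b → b + H ≤ 2 ^ (k + 1) →
    ∀ V t : ℝ, EI p D a b ≤ V → 0 < t →
      ∑ T ∈ (block k).powerset with t ≤ |(tupI ((T : Finset ℕ) : Set ℕ) D a b : ℝ) - EI p D a b|, prodOn p (block k) T ≤
        2 * (H + 1) * Real.exp (-(t ^ 2 / (4 * (H + 1) ^ 2 * (V + t))))

/-- **Job MEAN.** The expected number of tuples.
Proof. Let `r = |D|`, `V = Vf (z k)`. `V k log 2 ≥ 1` for large `k` (`Vf_lim`: `Vf w * log w → exp (-γ)`, and `8 z k ≤ k`), so for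
`n` in the block `pr z n = 1 / (V log n)` if `n` is free of primes `< z k`, else `0`. So `EI` lies between
`N / (V (k + 1) log 2) ^ r` and `N / (V k log 2) ^ r`, `N` the number of the `n ∈ [a, b)` for which all
`n + h`, `h ∈ D`, are free of primes `< z k`. With `D' = D.image (H - ·)`: `N = NA (z k) D' (a + H) (b - a)`,
`nu D' p = nu D p`, so by `NA_near` (`HL.H2`) `|N - de D (z k) (b - a)| ≤ PQ (z k) ≤ 4 ^ (z k) ≤ 2 ^ (k / 4)`
(`PQ_le`, `CL.C6`). `de D z = Sz D z * V ^ r` (`Sz_eq`), `1 / V ≤ z k + 1` (`le_Vf2`), `Sz D (z k) → SS D` (`Sz_tendsto`),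
`((k + 1) / k) ^ r → 1`. -/
def J_MEAN : Prop := ∀ (z : ℕ → ℕ) (D : Finset ℕ) (H : ℕ), Tendsto z atTop atTop → (∀ᶠ k : ℕ in atTop, 8 * z k ≤ k) →
  D.Nonempty → (∀ h ∈ D, h ≤ H) → ∀ ε : ℝ, 0 < ε → ∀ᶠ k : ℕ in atTop, ∀ a b : ℕ, 2 ^ k ≤ a → a ≤ b → b + H ≤ 2 ^ (k + 1) →
    |EI (pr z) D a b - SS D * ((b : ℝ) - a) / (k * Real.log 2) ^ D.card| ≤ ε * (2 ^ k / (k * Real.log 2) ^ D.card)

open Classical in
/-- The law of a model which is thinned in the increasing order: `x` is left out if `φ x (the part of the set below x)`. -/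
noncomputable def thinOn (p : ℕ → ℝ) (φ : ℕ → Finset ℕ → Prop) (B T : Finset ℕ) : ℝ :=
  ∏ x ∈ B, (if x ∈ T then (if φ x (T.filter (fun y => y < x)) then 0 else p x)
    else (if φ x (T.filter (fun y => y < x)) then 1 else 1 - p x))

open Classical in
/-- **Job ADP.** Adaptive thinning.
Proof. Induction on `b` (`B = Ico a b`): for `T ⊆ Ico a (b + 1)`, `T' = T ∩ Ico a b`, `thinOn (Ico a (b+1)) T` is
`thinOn (Ico a b) T'` times the factor of `x = b`, which depends on `T'` and on whether `b ∈ T`, the two values have the sum `1`.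
(a), (b) follow. (c): if `b ∈ S`, the factor of `b ∈ T` is at most `p b`. (d): for `thinOn T ≠ 0` and `p < 1` every factor
divided by the factor of `prodOn` is `1`, or `1 / (1 - p x)` if `φ x` holds; so the logarithm of the quotient is the sum of
`-log (1 - p x)` over the `x ∈ B` with `φ x (T.filter (· < x))`; exchange the sums. (`thinOn (Ico a b) T` only depends on
`T ∩ Ico a b`, for the events `φ x` with `x < b`.) (e): a factor is `0`. -/
def J_ADP : Prop := ∀ (p : ℕ → ℝ) (φ : ℕ → Finset ℕ → Prop) (a b : ℕ), (∀ n ∈ Ico a b, 0 ≤ p n ∧ p n < 1) →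
  IsLaw p (Ico a b) (thinOn p φ (Ico a b)) ∧
  (∀ S ⊆ Ico a b, ∑ T ∈ (Ico a b).powerset with S ⊆ T, thinOn p φ (Ico a b) T ≤ ∏ n ∈ S, p n) ∧
  (entOf p (Ico a b) (thinOn p φ (Ico a b)) ≤ ∑ x ∈ Ico a b, -Real.log (1 - p x) *
    ∑ T ∈ (Ico a b).powerset with φ x (T.filter (fun y => y < x)), thinOn p φ (Ico a b) T) ∧
  ∀ T ∈ (Ico a b).powerset, thinOn p φ (Ico a b) T ≠ 0 → ∀ x ∈ T, ¬ φ x (T.filter (fun y => y < x))

/-- **Job THINK** (uses ADP, MEAN). The cheapest way to have no tuples.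
Proof. Let `D' = D.erase H`, `φ x U ↔ x < 2 ^ k + H ∨ ∀ h ∈ D', x - (H - h) ∈ U` and `R = thinOn (pr z) φ (block k)`.
For large `k` `pr z n ≤ 1 / (V k log 2) ≤ 1/2` in the block (`pr_le`, `Vf_lim`). By ADP (e) a set `T` with `R T ≠ 0` contains no
`x < 2 ^ k + H` and no `n + D` (otherwise `φ (n + H)` holds). By ADP (d), (c) and `-log (1 - p) ≤ 2 p` for `p ≤ 1/2`:
`entOf ≤ ∑_{x < 2 ^ k + H} 2 pr z x + 2 ∑_{x ≥ 2 ^ k + H} pr z x ∏_{h ∈ D'} pr z (x - (H - h))`, the first sum is at most `2 H`, the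
second is `2 EI (pr z) D (2 ^ k) (2 ^ (k + 1) - H)` (`x = n + H`), at most `2 (SS D + 1) 2 ^ k / (k log 2) ^ r` for large `k`
by MEAN. -/
def J_THINK : Prop := J_ADP → J_MEAN → ∀ (z : ℕ → ℕ) (D : Finset ℕ) (H : ℕ), Tendsto z atTop atTop →
  (∀ᶠ k : ℕ in atTop, 8 * z k ≤ k) → H ∈ D → (∀ h ∈ D, h ≤ H) →
    ∃ C : ℝ, 0 < C ∧ ∀ᶠ k : ℕ in atTop, ∃ R : Finset ℕ → ℝ, IsLaw (pr z) (block k) R ∧
      (∀ T ∈ (block k).powerset, R T ≠ 0 → (∀ n : ℕ, ¬ ∀ h ∈ D, n + h ∈ T) ∧ ∀ x ∈ T, 2 ^ k + H ≤ x) ∧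
      entOf (pr z) (block k) R ≤ C * (2 ^ k / k ^ D.card)

/-- **Job MIXL.** Mixtures.
Proof. `prodOn p B` is a law (`Finset.prod_add` / `sum_cramerOn`). For `T` with `P = prodOn p B T > 0` let `y = R T / P ≥ 0`; the
term is `P f((1 - q) + q y)`, `f y = y log y` convex on `[0, ∞)` (`Real.convexOn_mul_log`), so at most
`P ((1 - q) f 1 + q f y) = q R T log y`. For `P = 0` all terms are `0`. -/
def J_MIXL : Prop := ∀ (p : ℕ → ℝ) (B : Finset ℕ), (∀ n ∈ B, 0 ≤ p n ∧ p n ≤ 1) → IsLaw p B (prodOn p B) ∧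
  ∀ R : Finset ℕ → ℝ, IsLaw p B R → ∀ q : ℝ, 0 ≤ q → q ≤ 1 →
    IsLaw p B (fun T => (1 - q) * prodOn p B T + q * R T) ∧
      entOf p B (fun T => (1 - q) * prodOn p B T + q * R T) ≤ q * entOf p B R

/-- **Job EXI.** Random sets with independent blocks.
Proof. `blockLaw R` and `blockSet` of `ET.Construct` (`lawOn_blockLaw`, `isProb_blockLaw`, `isRandomSet_blockSet`): the
probability of `ω k ∈ s` is the sum of the `R k T`, `T ∈ s` (`blockLaw_pre`, `blockMeasure_apply`); almost surely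
`ω k ⊆ block k`, and then `tr A (block k) ω = ω k`. The elements have `0 < p n` almost surely because for `n ∈ T`,
`p n = 0` gives `prodOn = 0`, so `R k T = 0`. Second Borel–Cantelli lemma (`measure_limsup_eq_one`, `indep_blockLaw`). -/
def J_EXI : Prop := ∀ (p : ℕ → ℝ) (R : ℕ → Finset ℕ → ℝ), (∀ k, IsLaw p (block k) (R k)) →
  (∀ n, 0 ≤ p n) → ∃ (Ω : Type) (_ : MeasurableSpace Ω) (μ : Measure Ω) (_ : IsProbabilityMeasure μ) (A : Ω → Set ℕ),
    IsRandomSet A ∧ (∀ᵐ ω ∂μ, ∀ n ∈ A ω, 0 < p n) ∧ (∀ k, ∀ T ∈ (block k).powerset, lawOn μ A (block k) T = R k T) ∧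
      ∀ s : ℕ → Finset ℕ → Prop, ¬ Summable (fun k => μ.real {ω | s k (tr A (block k) ω)}) →
        ∀ᵐ ω ∂μ, ∃ᶠ k in atTop, s k (tr A (block k) ω)

/-- **Job EXC.** The same with one common coin.
Proof. On `ℕ → Finset ℕ` take the measure `(1 - q) blockLaw P + q blockLaw Q` (`ENNReal.ofReal`), `A = blockSet`; the laws are
`(1 - q) P k + q Q k`; under `blockLaw Q` almost surely `tr A (block k) ω = ω k` satisfies `s k` for all `k`. -/
def J_EXC : Prop := ∀ (p : ℕ → ℝ) (P Q : ℕ → Finset ℕ → ℝ), (∀ k, IsLaw p (block k) (P k)) → (∀ k, IsLaw p (block k) (Q k)) →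
  (∀ n, 0 ≤ p n) → ∀ q : ℝ, 0 ≤ q → q ≤ 1 →
    ∃ (Ω : Type) (_ : MeasurableSpace Ω) (μ : Measure Ω) (_ : IsProbabilityMeasure μ) (A : Ω → Set ℕ),
      IsRandomSet A ∧ (∀ᵐ ω ∂μ, ∀ n ∈ A ω, 0 < p n) ∧
      (∀ k, ∀ T ∈ (block k).powerset, lawOn μ A (block k) T = (1 - q) * P k T + q * Q k T) ∧
      ∀ s : ℕ → Finset ℕ → Prop, (∀ k, ∀ T ∈ (block k).powerset, Q k T ≠ 0 → s k T) →
        q ≤ μ.real {ω | ∀ k, s k (tr A (block k) ω)}

end Pool.Agent.Q120.TT
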