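import Pool.Agent.Q120.TT.Stm
import Pool.Agent.Q177.TT.THINK

/-!
# Project TT, assembly, part one: the deviations for all random sets of the class
-/

set_option autoImplicit false

namespace Pool.Agent.Q120.TT

open Finset MeasureTheory Filter Pool.Agent.Q120.ET Pool.Agent.Q120.GM Pool.Agent.Q120.CL Pool.Agent.Q120.MG
  Pool.Agent.Q120.HL Pool.Agent.Q112.LE
open scoped Topology

/-- The class: random sets, absolutely continuous, whose relative entropy in the block `k` is at most `d k` for large `k`. -/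
structure Near {Ω : Type} [MeasurableSpace Ω] (p d : ℕ → ℝ) (μ : Measure Ω) (A : Ω → Set ℕ) : Prop where
  rand : IsRandomSet A
  supp : ∀ᵐ ω ∂μ, ∀ n ∈ A ω, 0 < p n
  ent : ∀ᶠ k : ℕ in atTop, relEnt p μ A (block k) ≤ d k

/-- The jobs. -/
structure Jobs : Prop where
  entg : J_ENTG
  tailt : J_TAILT
  mean : J_MEAN
  adp : J_ADP
  think : J_THINK
  mixl : J_MIXL
  exi : J_EXI
  exc : J_EXC

/-- Some initial part of the block has the wrong number of tuples. -/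
def Bad (p : ℕ → ℝ) (D : Finset ℕ) (H k : ℕ) (e : ℝ) (S : Set ℕ) : Prop :=
  ∃ b : ℕ, 2 ^ k ≤ b ∧ b + H ≤ 2 ^ (k + 1) ∧
    e * (2 ^ k / (k : ℝ) ^ D.card) ≤ |(tupI S D (2 ^ k) b : ℝ) - EI p D (2 ^ k) b|

open Classical in
theorem sum_exists_le {ι : Type*} {B : Finset (Finset ℕ)} {f : Finset ℕ → ℝ} (hf : ∀ T ∈ B, 0 ≤ f T) (I : Finset ι)
    (Q : ι → Finset ℕ → Prop) : ∑ T ∈ B with (∃ i ∈ I, Q i T), f T ≤ ∑ i ∈ I, ∑ T ∈ B with Q i T, f T := by
  have h1 : ∀ i ∈ I, ∑ T ∈ B with Q i T, f T = ∑ T ∈ B, (if Q i T then f T else 0) := fun i _ => sum_filter _ _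
  rw [sum_congr rfl h1, sum_comm, sum_filter]
  refine sum_le_sum (fun T hT => ?_)
  split_ifs with h
  · obtain ⟨i, hi, hQ⟩ := h
    have h2 : (if Q i T then f T else 0) ≤ ∑ j ∈ I, (if Q j T then f T else 0) :=
      single_le_sum (f := fun j => if Q j T then f T else 0) (fun j _ => by split_ifs; exacts [hf T hT, le_rfl]) hi
    rw [if_pos hQ] at h2
    exact h2
  · exact sum_nonneg (fun j _ => by split_ifs; exacts [hf T hT, le_rfl])

theorem prodOn_nonneg {p : ℕ → ℝ} {B T : Finset ℕ} (hp : ∀ n ∈ B, 0 ≤ p n ∧ p n ≤ 1) (hT : T ⊆ B) : 0 ≤ prodOn p B T :=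
  mul_nonneg (prod_nonneg (fun n hn => (hp n (hT hn)).1))
    (prod_nonneg (fun n hn => by have := (hp n (mem_sdiff.1 hn).1).2; linarith))

theorem pr_ok (z : ℕ → ℕ) (n : ℕ) : 0 ≤ pr z n ∧ pr z n ≤ 1 := ⟨pr_nonneg z n, pr_le_one z n⟩

theorem pow_large (K : ℝ) (r : ℕ) {c : ℝ} (hc : 0 < c) : ∀ᶠ k : ℕ in atTop, K * k ≤ c * (2 ^ k / (k : ℝ) ^ r) := by
  filter_upwards [ev_two (|K| / c) (r + 1) (e := 1) one_pos, eventually_ge_atTop 1] with k hk hk1
  have hk0 : (0 : ℝ) < k := by exact_mod_cast hk1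
  rw [Real.rpow_one] at hk
  have h1 : K * k ≤ |K| * k := mul_le_mul_of_nonneg_right (le_abs_self K) hk0.le
  have h2 : |K| * k ≤ c * (2 ^ k / (k : ℝ) ^ r) := by
    rw [← mul_div_assoc, le_div_iff₀ (by positivity)]
    have h3 : c * (|K| / c * (k : ℝ) ^ (r + 1)) ≤ c * 2 ^ k := mul_le_mul_of_nonneg_left hk hc.le
    have h4 : c * (|K| / c * (k : ℝ) ^ (r + 1)) = |K| * k * (k : ℝ) ^ r := by
      field_simp
      ring
    linarith
  linarith

section

variable {z : ℕ → ℕ} {D : Finset ℕ} {H : ℕ}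

/-- Upper bound for the expectation. -/
theorem EI_le (J : Jobs) (hz : Tendsto z atTop atTop) (hz8 : ∀ᶠ k : ℕ in atTop, 8 * z k ≤ k) (hD : D.Nonempty)
    (hH : ∀ h ∈ D, h ≤ H) : ∀ᶠ k : ℕ in atTop, ∀ b : ℕ, 2 ^ k ≤ b → b + H ≤ 2 ^ (k + 1) →
      EI (pr z) D (2 ^ k) b ≤ (SS D + 1) / Real.log 2 ^ D.card * (2 ^ k / (k : ℝ) ^ D.card) := by
  filter_upwards [J.mean z D H hz hz8 hD hH 1 one_pos, eventually_ge_atTop 1] with k hk hk1 b hb1 hb2
  have hk0 : (0 : ℝ) < k := by exact_mod_cast hk1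
  have hl : 0 < Real.log 2 := Real.log_pos (by norm_num)
  have h1 := (abs_le.1 (hk (2 ^ k) b le_rfl hb1 hb2)).2
  have h2 : (b : ℝ) - (2 ^ k : ℕ) ≤ 2 ^ k := by
    have : (b : ℝ) ≤ 2 ^ (k + 1) := by
      have : b ≤ 2 ^ (k + 1) := by omega
      exact_mod_cast this
    push_cast
    rw [pow_succ] at this
    linarith
  have h3 : SS D * ((b : ℝ) - (2 ^ k : ℕ)) / (k * Real.log 2) ^ D.card ≤ SS D * 2 ^ k / (k * Real.log 2) ^ D.card :=
    div_le_div_of_nonneg_right (mul_le_mul_of_nonneg_left h2 (SS_nonneg D)) (by positivity)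
  have h4 : (SS D + 1) / Real.log 2 ^ D.card * (2 ^ k / (k : ℝ) ^ D.card) =
      SS D * 2 ^ k / (k * Real.log 2) ^ D.card + 1 * (2 ^ k / (k * Real.log 2) ^ D.card) := by
    rw [mul_pow]
    field_simp
  rw [h4]
  linarith

open Classical in
/-- The bad event is very unlikely in the model. -/
theorem bad_model (J : Jobs) (hz : Tendsto z atTop atTop) (hz8 : ∀ᶠ k : ℕ in atTop, 8 * z k ≤ k) (hD : D.Nonempty)
    (hH : ∀ h ∈ D, h ≤ H) {e : ℝ} (he : 0 < e) : ∃ c : ℝ, 0 < c ∧ ∀ᶠ k : ℕ in atTop,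
      ∑ T ∈ (block k).powerset with Bad (pr z) D H k e ((T : Finset ℕ) : Set ℕ), prodOn (pr z) (block k) T ≤
        Real.exp (-(c * (2 ^ k / (k : ℝ) ^ D.card))) := by
  obtain ⟨C1, hC1⟩ : ∃ C1 : ℝ, C1 = (SS D + 1) / Real.log 2 ^ D.card := ⟨_, rfl⟩
  have hl : 0 < Real.log 2 := Real.log_pos (by norm_num)
  have hC10 : 0 < C1 := by
    rw [hC1]
    have := SS_nonneg D
    positivity
  obtain ⟨c2, hc2⟩ : ∃ c2 : ℝ, c2 = e ^ 2 / (4 * (H + 1) ^ 2 * (C1 + e)) := ⟨_, rfl⟩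
  have hc20 : 0 < c2 := by rw [hc2]; positivity
  refine ⟨c2 / 2, by linarith, ?_⟩
  obtain ⟨K0, hK0⟩ : ∃ K0 : ℝ, K0 = 2 + Real.log (2 * (H + 1)) := ⟨_, rfl⟩
  filter_upwards [EI_le J hz hz8 hD hH, pow_large K0 D.card (show 0 < c2 / 2 by linarith), eventually_ge_atTop 1]
    with k hk1 hk2 hk3
  have hk0 : (0 : ℝ) < k := by exact_mod_cast hk3
  obtain ⟨w, hw⟩ : ∃ w : ℝ, w = 2 ^ k / (k : ℝ) ^ D.card := ⟨_, rfl⟩
  have hw0 : 0 < w := by rw [hw]; positivity
  rw [← hw] at hk2 ⊢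
  have h1 : ∀ b ∈ (Icc (2 ^ k) (2 ^ (k + 1))).filter (fun b => b + H ≤ 2 ^ (k + 1)),
      ∑ T ∈ (block k).powerset with e * w ≤ |(tupI ((T : Finset ℕ) : Set ℕ) D (2 ^ k) b : ℝ) - EI (pr z) D (2 ^ k) b|,
        prodOn (pr z) (block k) T ≤ 2 * (H + 1) * Real.exp (-(c2 * w)) := by
    intro b hb
    rw [mem_filter, mem_Icc] at hb
    have h2 := J.tailt D H hD hH (pr z) (pr_ok z) k (2 ^ k) b le_rfl hb.1.1 hb.2 (C1 * w) (e * w)
      (by rw [hC1, hw]; exact hk1 b hb.1.1 hb.2) (mul_pos he hw0)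
    refine h2.trans (le_of_eq ?_)
    have h3 : (e * w) ^ 2 / (4 * (H + 1) ^ 2 * (C1 * w + e * w)) = c2 * w := by
      rw [hc2]
      have : C1 + e ≠ 0 := by positivity
      field_simp
    rw [h3]
  have h2 : ∑ T ∈ (block k).powerset with Bad (pr z) D H k e ((T : Finset ℕ) : Set ℕ), prodOn (pr z) (block k) T ≤
      ∑ b ∈ (Icc (2 ^ k) (2 ^ (k + 1))).filter (fun b => b + H ≤ 2 ^ (k + 1)), ∑ T ∈ (block k).powerset with
        e * w ≤ |(tupI ((T : Finset ℕ) : Set ℕ) D (2 ^ k) b : ℝ) - EI (pr z) D (2 ^ k) b|, prodOn (pr z) (block k) T := by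
    refine le_trans (le_of_eq ?_) (sum_exists_le (fun T hT => prodOn_nonneg (fun n _ => pr_ok z n) (mem_powerset.1 hT)) _ _)
    refine sum_congr (filter_congr (fun T _ => ?_)) (fun _ _ => rfl)
    unfold Bad
    rw [← hw]
    constructor
    · rintro ⟨b, hb1, hb2, hb3⟩
      exact ⟨b, by rw [mem_filter, mem_Icc]; exact ⟨⟨hb1, by omega⟩, hb2⟩, hb3⟩
    · rintro ⟨b, hb, hb3⟩
      rw [mem_filter, mem_Icc] at hb
      exact ⟨b, hb.1.1, hb.2, hb3⟩
  refine h2.trans ((sum_le_sum h1).trans ?_)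
  rw [sum_const, nsmul_eq_mul]
  have h3 : (((Icc (2 ^ k) (2 ^ (k + 1))).filter (fun b => b + H ≤ 2 ^ (k + 1))).card : ℝ) ≤ 2 ^ (k + 1) := by
    have h4 : ((Icc (2 ^ k) (2 ^ (k + 1))).filter (fun b => b + H ≤ 2 ^ (k + 1))).card ≤ 2 ^ (k + 1) := by
      refine (card_filter_le _ _).trans ?_
      rw [Nat.card_Icc]
      have : 1 ≤ 2 ^ k := Nat.one_le_two_pow
      rw [pow_succ]
      omega
    exact_mod_cast h4
  have h4 : (2 : ℝ) ^ (k + 1) = Real.exp ((k + 1) * Real.log 2) := by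
    rw [← Real.rpow_natCast, Real.rpow_def_of_pos (by norm_num)]
    push_cast
    ring_nf
  have h5 : 2 * ((H : ℝ) + 1) = Real.exp (Real.log (2 * (H + 1))) := (Real.exp_log (by positivity)).symm
  calc _ ≤ (2 : ℝ) ^ (k + 1) * (2 * (H + 1) * Real.exp (-(c2 * w))) :=
        mul_le_mul_of_nonneg_right h3 (by positivity)
    _ = Real.exp ((k + 1) * Real.log 2 + Real.log (2 * (H + 1)) + -(c2 * w)) := by
        rw [Real.exp_add, Real.exp_add, ← h4, ← h5]
        ring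
    _ ≤ Real.exp (-(c2 / 2 * w)) := by
        apply Real.exp_le_exp.2
        have h6 : Real.log 2 ≤ 1 := by
          have := Real.log_two_lt_d9
          linarith
        have h7 : ((k : ℝ) + 1) * Real.log 2 ≤ 2 * k := by
          have hk1' : (1 : ℝ) ≤ k := by exact_mod_cast hk3
          nlinarith
        have h8 : Real.log (2 * (H + 1)) ≤ Real.log (2 * (H + 1)) * k := by
          have hk1' : (1 : ℝ) ≤ k := by exact_mod_cast hk3
          have h9 : 0 ≤ Real.log (2 * ((H : ℝ) + 1)) := by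
            apply Real.log_nonneg
            have : (0 : ℝ) ≤ H := Nat.cast_nonneg H
            linarith
          nlinarith
        rw [hK0] at hk2
        nlinarith

theorem tupI_congr {S S' : Set ℕ} {a b : ℕ} (h : ∀ n ∈ Ico a b, ((∀ h ∈ D, n + h ∈ S) ↔ ∀ h ∈ D, n + h ∈ S')) :
    tupI S D a b = tupI S' D a b := by
  classical
  unfold tupI
  exact congrArg card (filter_congr h)

/-- The number of tuples in a part of the block only depends on the trace. -/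
theorem tupI_tr {Ω : Type} [MeasurableSpace Ω] {A : Ω → Set ℕ} {k a b : ℕ} (hH : ∀ h ∈ D, h ≤ H) (ha : 2 ^ k ≤ a)
    (hb : b + H ≤ 2 ^ (k + 1)) (ω : Ω) :
    tupI (A ω) D a b = tupI ((tr A (block k) ω : Finset ℕ) : Set ℕ) D a b := by
  have key : ∀ n ∈ Ico a b, ((∀ h ∈ D, n + h ∈ A ω) ↔ ∀ h ∈ D, n + h ∈ ((tr A (block k) ω : Finset ℕ) : Set ℕ)) := by
    intro n hn
    rw [mem_Ico] at hn
    refine forall_congr' (fun h => forall_congr' (fun hh => ?_))
    have h1 := hH h hh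
    rw [mem_coe, mem_tr]
    refine ⟨fun h2 => ⟨?_, h2⟩, fun h2 => h2.2⟩
    unfold block
    rw [mem_Ico]
    omega
  exact tupI_congr key

theorem Bad_tr {Ω : Type} [MeasurableSpace Ω] {A : Ω → Set ℕ} {p : ℕ → ℝ} {k : ℕ} {e : ℝ} (hH : ∀ h ∈ D, h ≤ H) (ω : Ω) :
    Bad p D H k e (A ω) ↔ Bad p D H k e ((tr A (block k) ω : Finset ℕ) : Set ℕ) := by
  unfold Bad
  refine exists_congr (fun b => and_congr_right (fun _ => and_congr_right (fun hb => ?_)))
  rw [tupI_tr hH le_rfl hb]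

/-- The law of a random set of the class on a large block. -/
theorem law_ok {Ω : Type} [MeasurableSpace Ω] {μ : Measure Ω} [IsProbabilityMeasure μ] {A : Ω → Set ℕ} {d : ℕ → ℝ}
    (hz8 : ∀ᶠ k : ℕ in atTop, 8 * z k ≤ k) (hA : Near (pr z) d μ A) :
    ∀ᶠ k : ℕ in atTop, IsLaw (pr z) (block k) (lawOn μ A (block k)) := by
  classical
  filter_upwards [hz8, eventually_ge_atTop 16] with k hk hk16
  refine ⟨fun T _ => measureReal_nonneg, ?_, ?_⟩
  · have h1 := real_event (μ := μ) hA.rand (block k) (fun _ => True)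
    rw [filter_true] at h1
    rw [← h1]
    simp
  · intro T hT h0
    unfold prodOn at h0
    rcases mul_eq_zero.1 h0 with h1 | h1
    · obtain ⟨n, hn, hn0⟩ := prod_eq_zero_iff.1 h1
      have hnB : n ∈ block k := mem_powerset.1 hT hn
      unfold lawOn
      have h2 : μ {ω | ∀ n ∈ block k, (n ∈ A ω ↔ n ∈ T)} = 0 := by
        have h3 := hA.supp
        rw [ae_iff] at h3
        refine measure_mono_null (fun ω hω => ?_) h3
        simp only [Set.mem_ofPred_eq] at hω ⊢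
        intro h4
        have h5 := h4 n ((hω n hnB).2 hn)
        rw [hn0] at h5
        exact lt_irrefl _ h5
      rw [Measure.real, h2, ENNReal.toReal_zero]
    · obtain ⟨n, hn, hn0⟩ := prod_eq_zero_iff.1 h1
      have h2 := Pool.Agent.Q177.TT.pr_small hk16 hk (mem_sdiff.1 hn).1
      linarith

/-- The bad event is unlikely for every random set of the class. -/
theorem bad_near (J : Jobs) (hz : Tendsto z atTop atTop) (hz8 : ∀ᶠ k : ℕ in atTop, 8 * z k ≤ k) (hD : D.Nonempty)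
    (hH : ∀ h ∈ D, h ≤ H) {e : ℝ} (he : 0 < e) : ∃ c : ℝ, 0 < c ∧ ∀ (Ω : Type) [MeasurableSpace Ω] (μ : Measure Ω)
      [IsProbabilityMeasure μ] (A : Ω → Set ℕ) (d : ℕ → ℝ), Near (pr z) d μ A →
        ∀ᶠ k : ℕ in atTop, μ.real {ω | Bad (pr z) D H k e (A ω)} ≤ (1 + d k) / (c * (2 ^ k / (k : ℝ) ^ D.card)) := by
  classical
  obtain ⟨c, hc, h⟩ := bad_model J hz hz8 hD hH he
  refine ⟨c, hc, fun Ω _ μ _ A d hA => ?_⟩
  filter_upwards [h, law_ok hz8 hA, hA.ent, eventually_ge_atTop 1] with k hk hlaw hent hk1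
  have hk0 : (0 : ℝ) < k := by exact_mod_cast hk1
  have h1 := J.entg (pr z) (block k) (fun n _ => pr_ok z n) _ hlaw
    (fun T => Bad (pr z) D H k e ((T : Finset ℕ) : Set ℕ)) (c * (2 ^ k / (k : ℝ) ^ D.card)) (by positivity) hk
  have h2 := real_event (μ := μ) hA.rand (block k) (fun T => Bad (pr z) D H k e ((T : Finset ℕ) : Set ℕ))
  have h3 : {ω | Bad (pr z) D H k e (A ω)} = {ω | Bad (pr z) D H k e ((tr A (block k) ω : Finset ℕ) : Set ℕ)} := by
    ext ω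
    simp only [Set.mem_ofPred_eq]
    exact Bad_tr hH ω
  rw [h3, h2]
  refine h1.trans ?_
  exact div_le_div_of_nonneg_right (by unfold relEnt at hent; linarith) (by positivity)

end

end Pool.Agent.Q120.TT
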