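import Pool.Agent.Q120.TT.Fin

/-!
# Project TT, assembly, part five: the constructions
-/

set_option autoImplicit false

namespace Pool.Agent.Q120.TT

open Finset MeasureTheory Filter Pool.Agent.Q120.ET Pool.Agent.Q120.GM Pool.Agent.Q120.CL Pool.Agent.Q120.MG
  Pool.Agent.Q120.HL Pool.Agent.Q112.LE
open scoped Topology

/-- `T` contains no tuple, and nothing near the left end of the block. -/
def Clean (D : Finset ℕ) (H k : ℕ) (T : Finset ℕ) : Prop := (∀ n : ℕ, ¬ ∀ h ∈ D, n + h ∈ T) ∧ ∀ x ∈ T, 2 ^ k + H ≤ x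

/-- The mixture. -/
noncomputable def mix (p : ℕ → ℝ) (q : ℕ → ℝ) (R : ℕ → Finset ℕ → ℝ) (k : ℕ) (T : Finset ℕ) : ℝ :=
  (1 - q k) * prodOn p (block k) T + q k * R k T

section

variable {z : ℕ → ℕ} {D : Finset ℕ} {H : ℕ} {d : ℕ → ℝ}

theorem entOf_congr {p : ℕ → ℝ} {B : Finset ℕ} {R R' : Finset ℕ → ℝ} (h : ∀ T ∈ B.powerset, R T = R' T) :
    entOf p B R = entOf p B R' := by
  unfold entOf
  exact sum_congr rfl (fun T hT => by rw [h T hT])

/-- The laws without tuples, for all blocks. -/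
theorem seqs (J : Jobs) (hz : Tendsto z atTop atTop) (hz8 : ∀ᶠ k : ℕ in atTop, 8 * z k ≤ k) (hHD : H ∈ D)
    (hH : ∀ h ∈ D, h ≤ H) : ∃ (C : ℝ) (K : ℕ) (R : ℕ → Finset ℕ → ℝ), 0 < C ∧ (∀ k, IsLaw (pr z) (block k) (R k)) ∧
      ∀ k, K ≤ k → (∀ T ∈ (block k).powerset, R k T ≠ 0 → Clean D H k T) ∧
        entOf (pr z) (block k) (R k) ≤ C * (2 ^ k / k ^ D.card) := by
  obtain ⟨C, hC, h⟩ := J.think J.adp J.mean z D H hz hz8 hHD hH
  obtain ⟨K, hK⟩ := eventually_atTop.1 h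
  have h1 : ∀ k : ℕ, ∃ R : Finset ℕ → ℝ, IsLaw (pr z) (block k) R ∧
      (K ≤ k → (∀ T ∈ (block k).powerset, R T ≠ 0 → Clean D H k T) ∧
        entOf (pr z) (block k) R ≤ C * (2 ^ k / k ^ D.card)) := by
    intro k
    by_cases hk : K ≤ k
    · obtain ⟨R, h1, h2, h3⟩ := hK k hk
      exact ⟨R, h1, fun _ => ⟨h2, h3⟩⟩
    · exact ⟨prodOn (pr z) (block k), (J.mixl (pr z) (block k) (fun n _ => pr_ok z n)).1, fun h => absurd h hk⟩
  choose R hR using h1
  exact ⟨C, K, R, hC, fun k => (hR k).1, fun k hk => (hR k).2 hk⟩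

/-- Independent blocks: infinitely many blocks without tuples. -/
theorem some_miss (J : Jobs) (hz : Tendsto z atTop atTop) (hz8 : ∀ᶠ k : ℕ in atTop, 8 * z k ≤ k) (hHD : H ∈ D)
    (hH : ∀ h ∈ D, h ≤ H) (hd : ∀ k, 0 ≤ d k) : ∃ (c : ℝ) (Ω : Type) (_ : MeasurableSpace Ω) (μ : Measure Ω)
      (_ : IsProbabilityMeasure μ) (A : Ω → Set ℕ), 0 < c ∧ Near (pr z) d μ A ∧
        (∀ᶠ k : ℕ in atTop, min 1 (c * (d k * (k : ℝ) ^ D.card / 2 ^ k)) ≤ μ.real {ω | ¬ Hit (A ω) D H k}) ∧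
        (¬ Summable (fun k : ℕ => d k * (k : ℝ) ^ D.card / 2 ^ k) → ∀ᵐ ω ∂μ, ∃ᶠ k in atTop, ¬ Hit (A ω) D H k) := by
  classical
  obtain ⟨C, K, R, hC, hR1, hR2⟩ := seqs J hz hz8 hHD hH
  obtain ⟨q, hq⟩ : ∃ q : ℕ → ℝ, q = fun k => min 1 (1 / C * (d k * (k : ℝ) ^ D.card / 2 ^ k)) := ⟨_, rfl⟩
  have hq0 : ∀ k, 0 ≤ q k := by
    intro k
    rw [hq]
    have := hd k
    exact le_min zero_le_one (by positivity)
  have hq1 : ∀ k, q k ≤ 1 := by
    intro k
    rw [hq]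
    exact min_le_left _ _
  have hmix := fun k => (J.mixl (pr z) (block k) (fun n _ => pr_ok z n)).2 (R k) (hR1 k) (q k) (hq0 k) (hq1 k)
  obtain ⟨Ω, hΩ, μ, hμ, A, hA1, hA2, hA3, hA4⟩ := J.exi (pr z) (mix (pr z) q R) (fun k => (hmix k).1) (pr_nonneg z)
  have hprob : ∀ k, K ≤ k → q k ≤ μ.real {ω | Clean D H k (tr A (block k) ω)} := by
    intro k hk
    rw [real_event (μ := μ) hA1 (block k) (fun T => Clean D H k T)]
    have h1 : ∑ T ∈ (block k).powerset with Clean D H k T, lawOn μ A (block k) T =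
        ∑ T ∈ (block k).powerset with Clean D H k T, mix (pr z) q R k T :=
      sum_congr rfl (fun T hT => hA3 k T (mem_filter.1 hT).1)
    rw [h1]
    have h2 : ∑ T ∈ (block k).powerset with Clean D H k T, q k * R k T ≤
        ∑ T ∈ (block k).powerset with Clean D H k T, mix (pr z) q R k T := by
      refine sum_le_sum (fun T hT => ?_)
      unfold mix
      have h3 := prodOn_nonneg (p := pr z) (fun n _ => pr_ok z n) (mem_powerset.1 (mem_filter.1 hT).1)
      have h4 := hq1 k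
      nlinarith [mul_nonneg (sub_nonneg.2 h4) h3]
    refine le_trans (le_of_eq ?_) h2
    rw [← mul_sum]
    have h3 : ∑ T ∈ (block k).powerset with Clean D H k T, R k T = ∑ T ∈ (block k).powerset, R k T := by
      rw [sum_filter]
      refine sum_congr rfl (fun T hT => ?_)
      split_ifs with h
      · rfl
      · by_contra hne
        exact h ((hR2 k hk).1 T hT (Ne.symm hne))
    rw [h3, (hR1 k).total, mul_one]
  have hmiss : ∀ k, ∀ ω, Clean D H k (tr A (block k) ω) → ¬ Hit (A ω) D H k := by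
    rintro k ω ⟨h1, _⟩ ⟨n, hn1, hn2, hn3⟩
    refine h1 n (fun h hh => ?_)
    rw [mem_tr]
    refine ⟨?_, hn3 h hh⟩
    have := hH h hh
    unfold block
    rw [mem_Ico]
    omega
  refine ⟨1 / C, Ω, hΩ, μ, hμ, A, by positivity, ⟨hA1, hA2, ?_⟩, ?_, ?_⟩
  · filter_upwards [eventually_ge_atTop K, eventually_ge_atTop 1] with k hk hk1
    have hk0 : (0 : ℝ) < k := by exact_mod_cast hk1
    unfold relEnt
    rw [entOf_congr (hA3 k)]
    refine (hmix k).2.trans ((mul_le_mul_of_nonneg_left (hR2 k hk).2 (hq0 k)).trans ?_)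
    have h1 : q k ≤ 1 / C * (d k * (k : ℝ) ^ D.card / 2 ^ k) := by rw [hq]; exact min_le_right _ _
    calc q k * (C * (2 ^ k / (k : ℝ) ^ D.card)) ≤ 1 / C * (d k * (k : ℝ) ^ D.card / 2 ^ k) * (C * (2 ^ k / (k : ℝ) ^ D.card)) :=
          mul_le_mul_of_nonneg_right h1 (by positivity)
      _ = d k := by field_simp
  · filter_upwards [eventually_ge_atTop K] with k hk
    have h1 : min 1 (1 / C * (d k * (k : ℝ) ^ D.card / 2 ^ k)) = q k := by rw [hq]
    rw [h1]
    exact (hprob k hk).trans (measureReal_mono (fun ω hω => hmiss k ω hω) (measure_ne_top _ _))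
  · intro hns
    have h1 : ¬ Summable (fun k => μ.real {ω | Clean D H k (tr A (block k) ω)}) := by
      intro hsum
      apply hns
      have h2 : Summable q := by
        refine (summable_nat_add_iff K).1 ?_
        refine Summable.of_nonneg_of_le (fun k => hq0 _) (fun k => hprob (k + K) (by omega)) ((summable_nat_add_iff K).2 hsum)
      have h3 : ∀ᶠ k in atTop, q k < 1 := h2.tendsto_atTop_zero.eventually (gt_mem_nhds one_pos)
      obtain ⟨N, hN⟩ := eventually_atTop.1 h3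
      refine (summable_nat_add_iff N).1 ?_
      have h4 : Summable (fun k => C * q (k + N)) := ((summable_nat_add_iff N).2 h2).mul_left C
      refine h4.congr (fun k => ?_)
      have h5 := hN (k + N) (by omega)
      have h6 : q (k + N) = 1 / C * (d (k + N) * ((k + N : ℕ) : ℝ) ^ D.card / 2 ^ (k + N)) := by
        rw [hq] at h5 ⊢
        rcases min_choice 1 (1 / C * (d (k + N) * ((k + N : ℕ) : ℝ) ^ D.card / 2 ^ (k + N))) with h7 | h7
        · exfalso
          simp only at h5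
          rw [h7] at h5
          exact lt_irrefl _ h5
        · simp only
          rw [h7]
      rw [h6]
      field_simp
    filter_upwards [hA4 (fun k T => Clean D H k T) h1] with ω hω
    exact hω.mono (fun k hk => hmiss k ω hk)

/-- A common coin: finitely many tuples with positive probability. -/
theorem some_finite (J : Jobs) (hz : Tendsto z atTop atTop) (hz8 : ∀ᶠ k : ℕ in atTop, 8 * z k ≤ k) (hHD : H ∈ D)
    (hH : ∀ h ∈ D, h ≤ H) {c : ℝ} (hc : 0 < c) (hd : ∀ᶠ k : ℕ in atTop, c ≤ d k * (k : ℝ) ^ D.card / 2 ^ k) :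
    ¬ AllNear (pr z) d (fun S => {n : ℕ | ∀ h ∈ D, n + h ∈ S}.Infinite) := by
  classical
  obtain ⟨C, K, R, hC, hR1, hR2⟩ := seqs J hz hz8 hHD hH
  obtain ⟨q, hq⟩ : ∃ q : ℝ, q = min 1 (c / C) := ⟨_, rfl⟩
  have hq0 : 0 < q := by rw [hq]; exact lt_min one_pos (by positivity)
  have hq1 : q ≤ 1 := by rw [hq]; exact min_le_left _ _
  have hP : ∀ k, IsLaw (pr z) (block k) (prodOn (pr z) (block k)) :=
    fun k => (J.mixl (pr z) (block k) (fun n _ => pr_ok z n)).1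
  obtain ⟨Ω, hΩ, μ, hμ, A, hA1, hA2, hA3, hA4⟩ := J.exc (pr z) (fun k => prodOn (pr z) (block k)) R hP hR1
    (pr_nonneg z) q hq0.le hq1
  have hnear : Near (pr z) d μ A := by
    refine ⟨hA1, hA2, ?_⟩
    filter_upwards [eventually_ge_atTop K, eventually_ge_atTop 1, hd] with k hk hk1 hk2
    have hk0 : (0 : ℝ) < k := by exact_mod_cast hk1
    unfold relEnt
    rw [entOf_congr (hA3 k)]
    have h1 := ((J.mixl (pr z) (block k) (fun n _ => pr_ok z n)).2 (R k) (hR1 k) q hq0.le hq1).2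
    refine h1.trans ((mul_le_mul_of_nonneg_left (hR2 k hk).2 hq0.le).trans ?_)
    have h2 : q ≤ c / C := by rw [hq]; exact min_le_right _ _
    calc q * (C * (2 ^ k / (k : ℝ) ^ D.card)) ≤ c / C * (C * (2 ^ k / (k : ℝ) ^ D.card)) :=
          mul_le_mul_of_nonneg_right h2 (by positivity)
      _ = c * (2 ^ k / (k : ℝ) ^ D.card) := by field_simp
      _ ≤ d k * (k : ℝ) ^ D.card / 2 ^ k * (2 ^ k / (k : ℝ) ^ D.card) := mul_le_mul_of_nonneg_right hk2 (by positivity)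
      _ = d k := by field_simp
  intro hall
  have h1 := hall Ω μ A hnear
  have h2 := hA4 (fun k T => K ≤ k → Clean D H k T) (fun k T hT hne hk => (hR2 k hk).1 T hT hne)
  have h3 : {ω | ∀ k, K ≤ k → Clean D H k (tr A (block k) ω)} ⊆ {ω | ¬ {n : ℕ | ∀ h ∈ D, n + h ∈ A ω}.Infinite} := by
    intro ω hω
    simp only [Set.mem_ofPred_eq] at hω ⊢
    rw [Set.not_infinite]
    refine (Set.finite_Iio (2 ^ K)).subset (fun n hn => ?_)
    simp only [Set.mem_ofPred_eq] at hn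
    rw [Set.mem_Iio]
    by_contra hnK
    rw [not_lt] at hnK
    have hn0 : n ≠ 0 := by
      have : 1 ≤ 2 ^ K := Nat.one_le_two_pow
      omega
    obtain ⟨k, hk⟩ : ∃ k, k = Nat.log 2 n := ⟨_, rfl⟩
    have hk1 : 2 ^ k ≤ n := by rw [hk]; exact Nat.pow_log_le_self 2 hn0
    have hk2 : n < 2 ^ (k + 1) := by rw [hk]; exact Nat.lt_pow_succ_log_self (by norm_num : 1 < 2) n
    have hkK : K ≤ k := by rw [hk]; exact Nat.le_log_of_pow_le (by norm_num) hnK
    by_cases hb : n + H < 2 ^ (k + 1)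
    · refine (hω k hkK).1 n (fun h hh => ?_)
      rw [mem_tr]
      refine ⟨?_, hn h hh⟩
      have := hH h hh
      unfold block
      rw [mem_Ico]
      omega
    · rw [not_lt] at hb
      have hm0 : n + H ≠ 0 := by omega
      obtain ⟨j, hj⟩ : ∃ j, j = Nat.log 2 (n + H) := ⟨_, rfl⟩
      have hj1 : 2 ^ j ≤ n + H := by rw [hj]; exact Nat.pow_log_le_self 2 hm0
      have hj2 : n + H < 2 ^ (j + 1) := by rw [hj]; exact Nat.lt_pow_succ_log_self (by norm_num : 1 < 2) _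
      have hj3 : k + 1 ≤ j := by rw [hj]; exact Nat.le_log_of_pow_le (by norm_num) hb
      have h4 := (hω j (by omega)).2 (n + H) (by
        rw [mem_tr]
        refine ⟨?_, hn H hHD⟩
        unfold block
        rw [mem_Ico]
        exact ⟨hj1, hj2⟩)
      have h5 : 2 ^ (k + 1) ≤ 2 ^ j := Nat.pow_le_pow_right (by norm_num) hj3
      omega
  have h4 : μ {ω | ¬ {n : ℕ | ∀ h ∈ D, n + h ∈ A ω}.Infinite} = 0 := by
    rw [ae_iff] at h1
    exact h1
  have h5 : μ.real {ω | ∀ k, K ≤ k → Clean D H k (tr A (block k) ω)} ≤ 0 := by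
    refine (measureReal_mono h3 (measure_ne_top _ _)).trans ?_
    rw [Measure.real, h4, ENNReal.toReal_zero]
  exact absurd (h2.trans h5) (not_le.2 hq0)

/-! ## The three thresholds -/

theorem part_one (J : Jobs) (hz : Tendsto z atTop atTop) (hz8 : ∀ᶠ k : ℕ in atTop, 8 * z k ≤ k) (hHD : H ∈ D)
    (hH : ∀ h ∈ D, h ≤ H) (hSS : SS D ≠ 0) (hd : ∀ k, 0 ≤ d k) :
    (Summable (fun k : ℕ => d k * (k : ℝ) ^ D.card / 2 ^ k) ↔ AllNear (pr z) d (fun S => Asym S D)) ∧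
    (Summable (fun k : ℕ => d k * (k : ℝ) ^ D.card / 2 ^ k) ↔ AllNear (pr z) d (fun S => ∀ᶠ k in atTop, Hit S D H k)) ∧
    (¬ Summable (fun k : ℕ => d k * (k : ℝ) ^ D.card / 2 ^ k) → SomeNear (pr z) d (fun S => ∃ᶠ k in atTop, ¬ Hit S D H k)) := by
  have hD : D.Nonempty := ⟨H, hHD⟩
  have h1 : Summable (fun k : ℕ => d k * (k : ℝ) ^ D.card / 2 ^ k) → AllNear (pr z) d (fun S => Asym S D) :=
    fun hs => all_asym J hz hz8 hD hH hs
  have h2 : AllNear (pr z) d (fun S => Asym S D) → AllNear (pr z) d (fun S => ∀ᶠ k in atTop, Hit S D H k) := by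
    intro h Ω _ μ _ A hA
    filter_upwards [h Ω μ A hA] with ω hω
    exact hit_of_asym hD hH hSS hω
  have h3 : ¬ Summable (fun k : ℕ => d k * (k : ℝ) ^ D.card / 2 ^ k) →
      SomeNear (pr z) d (fun S => ∃ᶠ k in atTop, ¬ Hit S D H k) := by
    intro hns
    obtain ⟨c, Ω, hΩ, μ, hμ, A, _, hA, _, h⟩ := some_miss J hz hz8 hHD hH hd
    exact ⟨Ω, hΩ, μ, hμ, A, hA, h hns⟩
  have h4 : AllNear (pr z) d (fun S => ∀ᶠ k in atTop, Hit S D H k) → Summable (fun k : ℕ => d k * (k : ℝ) ^ D.card / 2 ^ k) := by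
    intro h
    by_contra hns
    refine not_all (h3 hns) (fun S hS h5 => ?_) h
    obtain ⟨k, hk1, hk2⟩ := (hS.and_eventually h5).exists
    exact hk1 hk2
  exact ⟨⟨h1, fun h => h4 (h2 h)⟩, ⟨fun h => h2 (h1 h), h4⟩, h3⟩

theorem part_two (J : Jobs) (hz : Tendsto z atTop atTop) (hz8 : ∀ᶠ k : ℕ in atTop, 8 * z k ≤ k) (hHD : H ∈ D)
    (hH : ∀ h ∈ D, h ≤ H) (hSS : SS D ≠ 0) (hd : ∀ k, 0 ≤ d k) :
    (Tendsto (fun k : ℕ => d k * (k : ℝ) ^ D.card / 2 ^ k) atTop (𝓝 0) ↔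
      ∀ e : ℝ, 0 < e → VanNear (pr z) d (fun k S => Off D e k S)) ∧
    (Tendsto (fun k : ℕ => d k * (k : ℝ) ^ D.card / 2 ^ k) atTop (𝓝 0) ↔ VanNear (pr z) d (fun k S => ¬ Hit S D H k)) := by
  have hD : D.Nonempty := ⟨H, hHD⟩
  have hSS0 : 0 < SS D := lt_of_le_of_ne (SS_nonneg D) (Ne.symm hSS)
  have hl : 0 < Real.log 2 := Real.log_pos (by norm_num)
  have h1 : Tendsto (fun k : ℕ => d k * (k : ℝ) ^ D.card / 2 ^ k) atTop (𝓝 0) →
      ∀ e : ℝ, 0 < e → VanNear (pr z) d (fun k S => Off D e k S) := fun hs e he => van_off J hz hz8 hD hH hs he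
  have h2 : (∀ e : ℝ, 0 < e → VanNear (pr z) d (fun k S => Off D e k S)) → VanNear (pr z) d (fun k S => ¬ Hit S D H k) := by
    intro h Ω _ μ _ A hA
    have h3 := h (SS D / Real.log 2 ^ D.card / 2) (by positivity) Ω μ A hA
    refine squeeze_zero' (Eventually.of_forall (fun k => measureReal_nonneg)) ?_ h3
    filter_upwards [off_of_not_hit (H := H) hSS0] with k hk
    exact measureReal_mono (fun ω hω => hk _ hω) (measure_ne_top _ _)
  have h3 : VanNear (pr z) d (fun k S => ¬ Hit S D H k) → Tendsto (fun k : ℕ => d k * (k : ℝ) ^ D.card / 2 ^ k) atTop (𝓝 0) := by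
    intro h
    obtain ⟨c, Ω, hΩ, μ, hμ, A, hc, hA, h4, _⟩ := some_miss J hz hz8 hHD hH hd
    have h5 := h Ω μ A hA
    have h6 : Tendsto (fun k : ℕ => min 1 (c * (d k * (k : ℝ) ^ D.card / 2 ^ k))) atTop (𝓝 0) := by
      refine squeeze_zero' (Eventually.of_forall (fun k => ?_)) h4 h5
      have := hd k
      exact le_min zero_le_one (by positivity)
    have h7 : Tendsto (fun k : ℕ => 1 / c * min 1 (c * (d k * (k : ℝ) ^ D.card / 2 ^ k))) atTop (𝓝 (1 / c * 0)) :=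
      h6.const_mul _
    rw [mul_zero] at h7
    refine h7.congr' ?_
    filter_upwards [h6.eventually (gt_mem_nhds one_pos)] with k hk
    rcases min_choice 1 (c * (d k * (k : ℝ) ^ D.card / 2 ^ k)) with h8 | h8
    · rw [h8] at hk
      exact absurd hk (lt_irrefl _)
    · rw [h8]
      field_simp
  exact ⟨⟨h1, fun h => h3 (h2 h)⟩, ⟨fun h => h2 (h1 h), h3⟩⟩

theorem part_three (J : Jobs) (hz : Tendsto z atTop atTop) (hz8 : ∀ᶠ k : ℕ in atTop, 8 * z k ≤ k) (hHD : H ∈ D)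
    (hH : ∀ h ∈ D, h ≤ H) (hSS : SS D ≠ 0) :
    (∀ c : ℝ, 0 < c → ∃ᶠ k : ℕ in atTop, d k * (k : ℝ) ^ D.card / 2 ^ k < c) ↔
      AllNear (pr z) d (fun S => {n : ℕ | ∀ h ∈ D, n + h ∈ S}.Infinite) := by
  have hD : D.Nonempty := ⟨H, hHD⟩
  have hSS0 : 0 < SS D := lt_of_le_of_ne (SS_nonneg D) (Ne.symm hSS)
  refine ⟨fun hs => all_inf J hz hz8 hD hH hSS0 hs, fun h => ?_⟩
  by_contra hcon
  push Not at hcon
  obtain ⟨c, hc, h1⟩ := hcon
  exact some_finite J hz hz8 hHD hH hc h1 h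

/-- The hierarchy. -/
theorem part_four (J : Jobs) (hz : Tendsto z atTop atTop) (hz8 : ∀ᶠ k : ℕ in atTop, 8 * z k ≤ k) (hHD : H ∈ D)
    (hH : ∀ h ∈ D, h ≤ H) : ∃ (Ω : Type) (_ : MeasurableSpace Ω) (μ : Measure Ω) (_ : IsProbabilityMeasure μ) (A : Ω → Set ℕ),
      Near (pr z) (fun k : ℕ => 2 ^ k / (k : ℝ) ^ (D.card + 1)) μ A ∧
        (∀ᵐ ω ∂μ, (∀ D' : Finset ℕ, D'.Nonempty → D'.card < D.card → Asym (A ω) D') ∧
          ∃ᶠ k in atTop, ¬ Hit (A ω) D H k) := by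
  obtain ⟨r, hr⟩ : ∃ r, r = D.card := ⟨_, rfl⟩
  rw [← hr]
  obtain ⟨d, hd⟩ : ∃ d : ℕ → ℝ, d = fun k : ℕ => 2 ^ k / (k : ℝ) ^ (r + 1) := ⟨_, rfl⟩
  have hd0 : ∀ k, 0 ≤ d k := by intro k; rw [hd]; positivity
  obtain ⟨c, Ω, hΩ, μ, hμ, A, _, hA, _, h⟩ := some_miss J hz hz8 hHD hH hd0
  refine ⟨Ω, hΩ, μ, hμ, A, by rw [← hd]; exact hA, ?_⟩
  have h1 : ∀ D' : Finset ℕ, ∀ᵐ ω ∂μ, D'.Nonempty → D'.card < r → Asym (A ω) D' := by
    intro D'
    by_cases hD' : D'.Nonempty ∧ D'.card < r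
    · have h2 : Summable (fun k : ℕ => d k * (k : ℝ) ^ D'.card / 2 ^ k) := by
        have h3 : Summable (fun k : ℕ => 1 / (k : ℝ) ^ 2) := Real.summable_one_div_nat_pow.2 (by norm_num)
        refine Summable.of_nonneg_of_le (fun k => ?_) (fun k => ?_) h3
        · have := hd0 k
          positivity
        · rcases Nat.eq_zero_or_pos k with hk | hk
          · subst hk
            rw [hd]
            simp
          · have hk0 : (0 : ℝ) < k := by exact_mod_cast hk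
            have hk1 : (1 : ℝ) ≤ k := by exact_mod_cast hk
            rw [hd]
            have e1 : (2 : ℝ) ^ k / (k : ℝ) ^ (r + 1) * (k : ℝ) ^ D'.card / 2 ^ k = (k : ℝ) ^ D'.card / (k : ℝ) ^ (r + 1) := by
              field_simp
            rw [e1, div_le_div_iff₀ (by positivity) (by positivity), one_mul, ← pow_add]
            exact pow_le_pow_right₀ hk1 (by omega)
      have h3 := all_asym J hz hz8 hD'.1 (H := D'.sup id) (fun h hh => le_sup (f := id) hh) h2 Ω μ A hA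
      filter_upwards [h3] with ω hω _ _
      exact hω
    · exact Eventually.of_forall (fun ω h2 h3 => absurd ⟨h2, h3⟩ hD')
  have h2 : ¬ Summable (fun k : ℕ => d k * (k : ℝ) ^ D.card / 2 ^ k) := by
    intro hs
    refine Real.not_summable_one_div_natCast ?_
    refine hs.congr (fun k => ?_)
    rcases Nat.eq_zero_or_pos k with hk | hk
    · subst hk
      rw [hd, ← hr]
      simp
    · have hk0 : (0 : ℝ) < k := by exact_mod_cast hk
      simp only [hd, ← hr]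
      rw [pow_succ]
      field_simp
  filter_upwards [ae_all_iff.2 h1, h h2] with ω h3 h4
  exact ⟨h3, h4⟩

end

end Pool.Agent.Q120.TT
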